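import Pool.Agent.T3h87.QT.Sharp

/-!
# Functions of several residues with bounded mean squares on average over the primes
-/

set_option autoImplicit false

namespace Pool.Agent.T3h87.QT

open Finset Filter
open Pool.Agent.R459.Eq (pri mem_pri mean Vs)
open Pool.Agent.N794.CG (meanD meanD_eq)
open Pool.Agent.T3h87.LT

/-- functions of several residues which are at most `√p` and have mean squares with bounded sums -/
structure SysB {D : ℕ} (B ε : ℝ) (φ : ℕ → ℕ → (Fin D → ℤ) → ℝ) : Prop where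
  per : ∀ j p : ℕ, p.Prime → ∀ m m' : Fin D → ℤ, (∀ l, (p : ℤ) ∣ m l - m' l) → φ j p m = φ j p m'
  bd : ∀ j p : ℕ, p.Prime → ∀ m : Fin D → ℤ, |φ j p m| ≤ √p
  sqs : ∀ j y : ℕ, 1 ≤ y → ∑ p ∈ pri y, meanD p D (fun m => φ j p m ^ 2) ≤ B * (y : ℝ) ^ (1 + ε)

lemma lays_sysb {D : ℕ} {B ε : ℝ} {φ : ℕ → ℕ → (Fin D → ℤ) → ℝ} (hφ : SysB B ε φ) : SysA (lays φ) := by
  refine ⟨fun i p hp m m' h => ?_, fun i p _ m => lay_mem _ _ (sg_mem _ _).1⟩
  unfold lays
  rw [hφ.per _ p hp m m' h]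

/-- **arbitrary sequences of functions which are at most `√p` and have bounded mean squares on average over the primes** -/
theorem real_avg (D : ℕ) (F : Fin D → ℤ → Set Fam) (hF : ∀ l, Kind (F l)) (B : ℝ) (hB : 1 ≤ B) (δ : ℝ) (hδ : 0 < δ) (hδ1 : δ ≤ 1) :
    ∃ (W e K : ℕ) (ρ : ℝ), 1 ≤ W ∧ 1 ≤ K ∧ 0 < ρ ∧ ((∀ l, Sharp (F l)) → e = 0) ∧ ∀ κ : Fin D → ℤ, (∀ l, κ l ≠ 0) → ∃ X₀ : ℕ, ∀ X : ℕ, X₀ ≤ X →
    ∀ f : Fin D → Fam, (∀ l, f l ∈ F l (κ l)) →
    ∀ φ : ℕ → ℕ → (Fin D → ℤ) → ℝ, SysB B (δ / 4) φ → ∀ E : Finset (∀ l, (f l).ι), E ⊆ Fintype.piFinset (fun l => (f l).set) →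
    (∀ i ∈ E, ∃ x : ℕ, X ≤ x ∧ (∀ l, (x : ℝ) ^ W ≤ (f l).size) ∧ ∃ j : ℕ, (j + 1) ^ K ≤ x ∧
      (x : ℝ) ^ (1 / 2 + δ) < |∑ p ∈ pri x, (φ j p (fun l => (f l).val (i l)) - meanD p D (φ j p))|) →
    ∑ i ∈ E, ∏ l, (f l).wt (i l) ≤ (∑ l, (1 + |Real.log (f l).size|) ^ e) * (X : ℝ) ^ (-ρ) := by
  obtain ⟨W, e, K, ρ, hW, hK, hρ, hS, H⟩ := poly_all2 D F hF (δ / 2) (by positivity) (by linarith)
  refine ⟨W, e, 2 * K, ρ, hW, by omega, hρ, hS, fun κ hκ => ?_⟩
  obtain ⟨X₀, J⟩ := H κ hκ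
  obtain ⟨G, hG⟩ : ∃ G : ℝ, G = 2 * B * (2 ^ D * 2 ^ D) := ⟨_, rfl⟩
  have h2D : (1 : ℝ) ≤ 2 ^ D := one_le_pow₀ (by norm_num)
  have hG1 : 1 ≤ G ∧ 2 ^ D ≤ G := by
    rw [hG]
    constructor
    · nlinarith [mul_le_mul h2D h2D (by norm_num) (by positivity)]
    · nlinarith [mul_le_mul h2D h2D (by norm_num) (by positivity)]
  obtain ⟨C, hC⟩ : ∃ C : ℝ, C = 2 * (2 + G) := ⟨_, rfl⟩
  have hC0 : 0 ≤ C := by rw [hC]; linarith [hG1.1]
  obtain ⟨X₁, hX₁, h1⟩ := log_small C (3 * δ / 8) hC0 (by positivity)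
  obtain ⟨X₂, hX₂, h2⟩ := log_small 2 (1 / (2 * K)) (by norm_num) (by positivity)
  refine ⟨X₀ + X₁ + X₂, fun X hX f hf φ hφ E hE hbad => ?_⟩
  refine J X (by omega) f hf (lays φ) (lays_sysb hφ) E hE fun i hi => ?_
  obtain ⟨x, hXx, hsz, j, hj, hlt⟩ := hbad i hi
  have hx1 : 1 ≤ x := by omega
  have hx1r : (1 : ℝ) ≤ x := by exact_mod_cast hx1
  have hx0 : (0 : ℝ) < x := by linarith
  obtain ⟨T, hT⟩ : ∃ T : ℝ, T = (x : ℝ) ^ (1 / 2 + δ / 8) := ⟨_, rfl⟩
  have hTx : √x ≤ T := by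
    rw [hT, Real.sqrt_eq_rpow]
    exact Real.rpow_le_rpow_of_exponent_le hx1r (by linarith)
  have hT0 : 0 < T := by rw [hT]; positivity
  have hTT : T ^ 2 = (x : ℝ) ^ (1 + δ / 4) := by
    rw [hT, ← Real.rpow_natCast, ← Real.rpow_mul hx0.le]
    congr 1
    push_cast
    ring
  have hxT : (x : ℝ) ≤ T ^ 2 := by
    rw [hTT]
    calc (x : ℝ) = (x : ℝ) ^ (1 : ℝ) := (Real.rpow_one _).symm
      _ ≤ _ := Real.rpow_le_rpow_of_exponent_le hx1r (by linarith)
  refine ⟨x, hXx, hsz, ?_⟩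
  obtain ⟨m, hm⟩ : ∃ m : Fin D → ℤ, m = fun l => (f l).val (i l) := ⟨_, rfl⟩
  rw [← hm] at hlt ⊢
  -- the number of the layers
  obtain ⟨r, hr⟩ : ∃ r, r = Nat.sqrt x := ⟨_, rfl⟩
  have hr1 : 1 ≤ r := by rw [hr]; exact Nat.sqrt_pos.2 hx1
  have hrx : (r : ℝ) ≤ √x := by
    rw [hr]
    apply Real.le_sqrt_of_sq_le
    have := Nat.sqrt_le' x
    exact_mod_cast this
  have hrx' : √x < (r : ℝ) + 1 := by
    rw [Real.sqrt_lt' (by positivity), hr]
    have := Nat.lt_succ_sqrt' x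
    exact_mod_cast this
  obtain ⟨Kx, hKx⟩ : ∃ Kx, Kx = Nat.log 2 r + 1 := ⟨_, rfl⟩
  have hK1 : √x < 2 ^ Kx := by
    have h3 : r < 2 ^ Kx := by rw [hKx]; exact Nat.lt_pow_succ_log_self (by norm_num) r
    have h4 : ((r : ℝ) + 1) ≤ 2 ^ Kx := by exact_mod_cast h3
    linarith
  have hK2 : (2 : ℝ) ^ Kx ≤ 2 * √x := by
    have h3 : 2 ^ (Nat.log 2 r) ≤ r := Nat.pow_log_le_self 2 (by omega)
    have h4 : ((2 : ℝ)) ^ (Nat.log 2 r) ≤ r := by exact_mod_cast h3
    rw [hKx, pow_succ]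
    linarith
  have hK3 : Kx ≤ Nat.log 2 x + 1 := by
    rw [hKx]
    have : r ≤ x := by rw [hr]; exact Nat.sqrt_le_self x
    have := Nat.log_mono_right (b := 2) this
    omega
  have hK3r : (Kx : ℝ) ≤ Nat.log 2 x + 1 := by exact_mod_cast hK3
  by_contra hcon
  push Not at hcon
  -- the bounds for the layers
  have hlay : ∀ k ∈ range (Kx + 1), ∀ s < 2,
      2 ^ k * |∑ p ∈ pri x, (lay k (sg s (φ j p m)) - meanD p D (fun m => lay k (sg s (φ j p m))))| ≤
        (2 + G) * (T * (x : ℝ) ^ (δ / 2)) := by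
    intro k hk s hs
    rw [mem_range] at hk
    have h2k : (2 : ℝ) ^ k ≤ 2 * √x := (pow_le_pow_right₀ (by norm_num) (by omega : k ≤ Kx)).trans hK2
    have h2k0 : (0 : ℝ) < 2 ^ k := by positivity
    have hidx : (Nat.pair j (2 * k + s) + 1) ^ K ≤ x := by
      have h3 := Nat.pair_lt_max_add_one_sq j (2 * k + s)
      have h4 : (Nat.pair j (2 * k + s) + 1) ^ K ≤ (max j (2 * k + s) + 1) ^ (2 * K) := by
        rw [pow_mul]
        exact Nat.pow_le_pow_left h3 K
      refine h4.trans ?_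
      rcases le_total (2 * k + s) j with h5 | h5
      · rw [max_eq_left h5]
        exact hj
      · rw [max_eq_right h5]
        have h6 := h2 x (by omega)
        have h7 : ((2 * k + s + 1 : ℕ) : ℝ) ≤ (x : ℝ) ^ (1 / (2 * (K : ℝ))) := by
          refine le_trans ?_ h6
          have h8 : (k : ℝ) ≤ Kx := by exact_mod_cast (by omega : k ≤ Kx)
          have h9 : (s : ℝ) ≤ 1 := by exact_mod_cast (by omega : s ≤ 1)
          push_cast
          linarith
        have h8 : ((2 * k + s + 1 : ℕ) : ℝ) ^ (2 * K) ≤ x := by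
          calc ((2 * k + s + 1 : ℕ) : ℝ) ^ (2 * K) ≤ ((x : ℝ) ^ (1 / (2 * (K : ℝ)))) ^ (2 * K) :=
                pow_le_pow_left₀ (Nat.cast_nonneg _) h7 _
            _ = x := by
                rw [← Real.rpow_natCast, ← Real.rpow_mul hx0.le]
                have hKr : (K : ℝ) ≠ 0 := by
                  have : (1 : ℝ) ≤ K := by exact_mod_cast hK
                  linarith
                have : 1 / (2 * (K : ℝ)) * ((2 * K : ℕ) : ℝ) = 1 := by
                  push_cast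
                  field_simp
                rw [this, Real.rpow_one]
        exact_mod_cast h8
    have h3 := hcon (Nat.pair j (2 * k + s)) hidx
    have e1 : ∀ p, lays φ (Nat.pair j (2 * k + s)) p = fun m => lay k (sg s (φ j p m)) := fun p =>
      funext fun m => lays_pair φ j k s p hs m
    simp only [e1] at h3
    -- the model
    have hV : ∑ p ∈ pri (2 ^ D * x), meanD p D (fun m => lay k (sg s (φ j p m))) ≤ G * T ^ 2 / 4 ^ k := by
      by_cases hk0 : k = 0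
      · subst hk0
        have h4 : ∀ p ∈ pri (2 ^ D * x), meanD p D (fun m => lay 0 (sg s (φ j p m))) ≤ 1 := by
          intro p hp
          have hpp := (mem_pri.1 hp).2
          refine (meanD_mono p D _ (fun _ => 1) fun m => (lay_mem _ _ (sg_mem _ _).1).2).trans ?_
          rw [meanD_one p D hpp.pos]
        refine (sum_le_sum h4).trans ?_
        rw [sum_const, nsmul_eq_mul, mul_one, pow_zero, div_one]
        have h5 := pri_card (2 ^ D * x)
        push_cast at h5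
        exact h5.trans (mul_le_mul hG1.2 hxT hx0.le (by linarith [hG1.1]))
      · have h4 : ∀ p ∈ pri (2 ^ D * x), meanD p D (fun m => lay k (sg s (φ j p m))) ≤ 2 / 4 ^ k * meanD p D (fun m => φ j p m ^ 2) := by
          intro p hp
          have h4 : ∀ m, lay k (sg s (φ j p m)) ≤ ∑ _u ∈ range 1, (2 / 4 ^ k) * (φ j p m) ^ 2 := by
            intro m
            rw [sum_range_one]
            refine (lay_sq k _ (sg_mem _ _).1 hk0).trans ?_
            have h5 : (sg s (φ j p m)) ^ 2 ≤ (φ j p m) ^ 2 := by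
              rw [← sq_abs (φ j p m)]
              exact pow_le_pow_left₀ (sg_mem _ _).1 (sg_mem _ _).2 2
            rw [div_mul_eq_mul_div]
            apply div_le_div_of_nonneg_right _ (by positivity)
            linarith
          refine (meanD_mono p D _ _ h4).trans ?_
          rw [meanD_lin, sum_range_one]
        refine (sum_le_sum h4).trans ?_
        rw [← mul_sum]
        have h5 := hφ.sqs j (2 ^ D * x) (Nat.mul_pos (by positivity) (by omega))
        have h6 : (((2 ^ D * x : ℕ) : ℝ)) ^ (1 + δ / 4) ≤ (2 ^ D * 2 ^ D) * T ^ 2 := by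
          rw [hTT]
          push_cast
          rw [Real.mul_rpow (by positivity) hx0.le]
          apply mul_le_mul_of_nonneg_right _ (by positivity)
          calc ((2 : ℝ) ^ D) ^ (1 + δ / 4) ≤ ((2 : ℝ) ^ D) ^ (2 : ℝ) := Real.rpow_le_rpow_of_exponent_le h2D (by linarith)
            _ = 2 ^ D * 2 ^ D := by
              rw [Real.rpow_two, sq]
        have h7 : B * (((2 ^ D * x : ℕ) : ℝ)) ^ (1 + δ / 4) ≤ B * ((2 ^ D * 2 ^ D) * T ^ 2) := mul_le_mul_of_nonneg_left h6 (by linarith)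
        calc 2 / 4 ^ k * ∑ p ∈ pri (2 ^ D * x), meanD p D (fun m => φ j p m ^ 2) ≤ 2 / 4 ^ k * (B * ((2 ^ D * 2 ^ D) * T ^ 2)) :=
              mul_le_mul_of_nonneg_left (h5.trans h7) (by positivity)
          _ = _ := by rw [hG]; ring
    have h4k : (4 : ℝ) ^ k = 2 ^ k * 2 ^ k := by
      rw [← mul_pow]
      norm_num
    have hsq : √(max 1 (∑ p ∈ pri (2 ^ D * x), meanD p D (fun m => lay k (sg s (φ j p m))))) ≤ 1 + G * T / 2 ^ k := by
      have hG0 : 0 < G := by linarith [hG1.1]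
      rw [Real.sqrt_le_left (by positivity)]
      apply max_le
      · have : 0 ≤ G * T / 2 ^ k := by positivity
        nlinarith
      · refine hV.trans ?_
        have h5 : (G * T / 2 ^ k) ^ 2 = G * (G * T ^ 2 / 4 ^ k) := by
          rw [div_pow, mul_pow, h4k]
          ring
        have h7 : 0 ≤ G * T ^ 2 / 4 ^ k := by positivity
        have h8 : 0 ≤ G * T / 2 ^ k := by positivity
        have h9 := mul_le_mul_of_nonneg_right hG1.1 h7
        nlinarith
    have hxd : 0 < (x : ℝ) ^ (δ / 2) := by positivity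
    calc 2 ^ k * |∑ p ∈ pri x, (lay k (sg s (φ j p m)) - meanD p D (fun m => lay k (sg s (φ j p m))))| ≤
          2 ^ k * ((1 + G * T / 2 ^ k) * (x : ℝ) ^ (δ / 2)) := by
          apply mul_le_mul_of_nonneg_left _ h2k0.le
          exact h3.trans (mul_le_mul_of_nonneg_right hsq hxd.le)
      _ = (2 ^ k + G * T) * (x : ℝ) ^ (δ / 2) := by field_simp
      _ ≤ ((2 + G) * T) * (x : ℝ) ^ (δ / 2) := by
          apply mul_le_mul_of_nonneg_right _ hxd.le
          linarith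
      _ = _ := by ring
  -- the sum
  have hdec : ∀ p ∈ pri x, ∀ m, φ j p m = ∑ k ∈ range (Kx + 1), 2 ^ k * (lay k (sg 0 (φ j p m)) - lay k (sg 1 (φ j p m))) := by
    intro p hp m
    have hpp := mem_pri.1 hp
    have h3 : |φ j p m| < 2 ^ Kx := by
      refine (hφ.bd j p hpp.2 m).trans_lt (lt_of_le_of_lt (Real.sqrt_le_sqrt ?_) hK1)
      exact_mod_cast hpp.1
    have h4 := lay_sum Kx (sg 0 (φ j p m)) (sg_mem _ _).1 ((sg_mem _ _).2.trans_lt h3)
    have h5 := lay_sum Kx (sg 1 (φ j p m)) (sg_mem _ _).1 ((sg_mem _ _).2.trans_lt h3)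
    simp only [mul_sub]
    rw [sum_sub_distrib, h4, h5, sg_sub]
  have hmn : ∀ p ∈ pri x, meanD p D (φ j p) = ∑ k ∈ range (Kx + 1),
      2 ^ k * (meanD p D (fun m => lay k (sg 0 (φ j p m))) - meanD p D (fun m => lay k (sg 1 (φ j p m)))) := by
    intro p hp
    have h3 : φ j p = fun m => ∑ k ∈ range (Kx + 1), 2 ^ k * (lay k (sg 0 (φ j p m)) - lay k (sg 1 (φ j p m))) :=
      funext fun m => hdec p hp m
    conv_lhs => rw [h3]
    rw [meanD_lin]
    refine sum_congr rfl fun k _ => ?_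
    congr 1
    rw [meanD_eq, meanD_eq, meanD_eq, ← mul_sub, ← sum_sub_distrib]
  have htot : ∑ p ∈ pri x, (φ j p m - meanD p D (φ j p)) = ∑ k ∈ range (Kx + 1), 2 ^ k *
      (∑ p ∈ pri x, (lay k (sg 0 (φ j p m)) - meanD p D (fun m => lay k (sg 0 (φ j p m)))) -
        ∑ p ∈ pri x, (lay k (sg 1 (φ j p m)) - meanD p D (fun m => lay k (sg 1 (φ j p m))))) := by
    have h3 : ∀ p ∈ pri x, φ j p m - meanD p D (φ j p) = ∑ k ∈ range (Kx + 1), 2 ^ k *
        ((lay k (sg 0 (φ j p m)) - meanD p D (fun m => lay k (sg 0 (φ j p m)))) -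
          (lay k (sg 1 (φ j p m)) - meanD p D (fun m => lay k (sg 1 (φ j p m))))) := by
      intro p hp
      rw [hmn p hp]
      conv_lhs => rw [hdec p hp m]
      rw [← sum_sub_distrib]
      exact sum_congr rfl fun k _ => by ring
    rw [sum_congr rfl h3, sum_comm]
    refine sum_congr rfl fun k _ => ?_
    rw [← mul_sum, sum_sub_distrib]
  have hfin : |∑ p ∈ pri x, (φ j p m - meanD p D (φ j p))| ≤ (x : ℝ) ^ (1 / 2 + δ) := by
    rw [htot]
    refine (abs_sum_le_sum_abs _ _).trans ?_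
    have h3 : ∀ k ∈ range (Kx + 1), |2 ^ k *
      (∑ p ∈ pri x, (lay k (sg 0 (φ j p m)) - meanD p D (fun m => lay k (sg 0 (φ j p m)))) -
        ∑ p ∈ pri x, (lay k (sg 1 (φ j p m)) - meanD p D (fun m => lay k (sg 1 (φ j p m)))))| ≤
        C * (T * (x : ℝ) ^ (δ / 2)) := by
      intro k hk
      rw [abs_mul, abs_of_nonneg (by positivity : (0 : ℝ) ≤ 2 ^ k)]
      have h4 := hlay k hk 0 (by norm_num)
      have h5 := hlay k hk 1 (by norm_num)
      have h6 : |∑ p ∈ pri x, (lay k (sg 0 (φ j p m)) - meanD p D (fun m => lay k (sg 0 (φ j p m)))) -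
        ∑ p ∈ pri x, (lay k (sg 1 (φ j p m)) - meanD p D (fun m => lay k (sg 1 (φ j p m))))| ≤
        |∑ p ∈ pri x, (lay k (sg 0 (φ j p m)) - meanD p D (fun m => lay k (sg 0 (φ j p m))))| +
        |∑ p ∈ pri x, (lay k (sg 1 (φ j p m)) - meanD p D (fun m => lay k (sg 1 (φ j p m))))| := abs_sub _ _
      have h7 : (0 : ℝ) < 2 ^ k := by positivity
      have h8 := mul_le_mul_of_nonneg_left h6 h7.le
      rw [mul_add] at h8
      rw [hC]
      linarith
    refine (sum_le_sum h3).trans ?_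
    rw [sum_const, card_range, nsmul_eq_mul]
    have h4 := h1 x (by omega)
    have h5 : ((Kx + 1 : ℕ) : ℝ) * C ≤ (x : ℝ) ^ (3 * δ / 8) := by
      refine le_trans ?_ h4
      rw [mul_comm]
      apply mul_le_mul_of_nonneg_left _ hC0
      push_cast
      linarith
    have h6 : (x : ℝ) ^ (1 / 2 + δ) = (x : ℝ) ^ (3 * δ / 8) * (T * (x : ℝ) ^ (δ / 2)) := by
      rw [hT, ← Real.rpow_add hx0, ← Real.rpow_add hx0]
      congr 1
      ring
    rw [h6, ← mul_assoc]
    exact mul_le_mul_of_nonneg_right h5 (by positivity)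
  linarith


end Pool.Agent.T3h87.QT
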