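import Pool.Agent.T3h87.HK.Loc

/-!
# Quadratic residue symbols of the values of a form, modulo the prime ideals of a number field
-/

set_option autoImplicit false

namespace Pool.Agent.T3h87.QT

open Finset NumberField IsDedekindDomain
open Pool.Agent.N842.HS (VT mem_VT norm_card prime_above card_high res_char)
open Pool.Agent.N647.NG (ch ch_abs quot_finite)
open Pool.Agent.N794.CG (meanD meanD_eq)
open Pool.Agent.R459.Eq (pri mem_pri)
open Pool.Agent.T3h87.HK (Vd mem_Vd card_Vd quot_iso)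
open Pool.Agent.T3h87.LT

open Classical in
/-- the quadratic symbol of an element of a ring -/
noncomputable def sq {R : Type} [CommRing R] (a : R) : ℝ := if a = 0 then 0 else if IsSquare a then 1 else -1

lemma sq_abs {R : Type} [CommRing R] (a : R) : |sq a| ≤ 1 := by
  unfold sq
  split_ifs <;> norm_num

lemma sq_iso {R R' : Type} [CommRing R] [CommRing R'] (e : R ≃+* R') (a : R) : sq (e a) = sq a := by
  have h1 : e a = 0 ↔ a = 0 := map_eq_zero_iff e e.injective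
  have h2 : IsSquare (e a) ↔ IsSquare a := by
    constructor
    · rintro ⟨b, hb⟩
      refine ⟨e.symm b, ?_⟩
      apply e.injective
      rw [map_mul, e.apply_symm_apply, hb]
    · rintro ⟨b, hb⟩
      exact ⟨e b, by rw [hb, map_mul]⟩
  unfold sq
  by_cases h0 : a = 0
  · rw [if_pos h0, if_pos (h1.2 h0)]
  · rw [if_neg h0, if_neg (fun h => h0 (h1.1 h))]
    by_cases h3 : IsSquare a
    · rw [if_pos h3, if_pos (h2.2 h3)]
    · rw [if_neg h3, if_neg (fun h => h3 (h2.1 h))]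

lemma sq_ch {κ : Type} [Field κ] [Fintype κ] [DecidableEq κ] (a : κ) : sq a = ch a := by
  unfold sq ch
  by_cases h0 : a = 0
  · rw [if_pos h0, h0]
    simp
  · rw [if_neg h0]
    by_cases h1 : IsSquare a
    · rw [if_pos h1, (quadraticChar_one_iff_isSquare h0).2 h1]
      simp
    · rw [if_neg h1, quadraticChar_neg_one_iff_not_isSquare.2 h1]
      simp

section
variable {R : Type} [CommRing R] {D : ℕ}

lemma hom_eval (P : MvPolynomial (Fin D) R) (k : ℕ) (hP : P.IsHomogeneous k) {S : Type} [CommRing S] (ρ : R →+* S) (u : S)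
    (t : Fin D → S) : MvPolynomial.eval₂ ρ (fun l => u * t l) P = u ^ k * MvPolynomial.eval₂ ρ t P := by
  rw [MvPolynomial.eval₂_eq, MvPolynomial.eval₂_eq, mul_sum]
  refine sum_congr rfl fun d hd => ?_
  have h1 : ∏ i ∈ d.support, (u * t i) ^ d i = u ^ k * ∏ i ∈ d.support, t i ^ d i := by
    have h2 : ∑ i ∈ d.support, d i = k := by
      have h3 := hP (MvPolynomial.mem_support_iff.1 hd)
      rw [Finsupp.weight_apply] at h3
      simpa [Finsupp.sum] using h3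
    rw [← h2, ← prod_pow_eq_pow_sum, ← prod_mul_distrib]
    exact prod_congr rfl fun i _ => mul_pow _ _ _
  rw [h1]
  ring

/-- **the mean of the symbols of the values of a form of odd degree is zero** -/
lemma mean_form (P : MvPolynomial (Fin D) R) (k : ℕ) (hP : P.IsHomogeneous k) (hk : Odd k) (p : ℕ) (hp : p.Prime) (h2 : p ≠ 2)
    (ρ : R →+* ZMod p) : meanD p D (fun m => sq (MvPolynomial.eval₂ ρ (fun l => (m l : ZMod p)) P)) = 0 := by
  classical
  have hF : Fact p.Prime := ⟨hp⟩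
  have h1 := meanD_zmod p hp D (fun t => sq (MvPolynomial.eval₂ ρ t P))
  rw [h1]
  obtain ⟨u, hu⟩ := FiniteField.exists_nonsquare (F := ZMod p) (by rwa [ZMod.ringChar_zmod_n])
  have hu0 : u ≠ 0 := by
    rintro rfl
    exact hu (IsSquare.zero)
  have h3 : ∀ t : Fin D → ZMod p, sq (MvPolynomial.eval₂ ρ (fun l => u * t l) P) = - sq (MvPolynomial.eval₂ ρ t P) := by
    intro t
    rw [hom_eval P k hP, sq_ch, sq_ch]
    unfold ch
    rw [map_mul, map_pow, quadraticChar_neg_one_iff_not_isSquare.2 hu, hk.neg_one_pow]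
    push_cast
    ring
  have h4 : ∑ t : Fin D → ZMod p, sq (MvPolynomial.eval₂ ρ t P) = ∑ t : Fin D → ZMod p, sq (MvPolynomial.eval₂ ρ (fun l => u * t l) P) := by
    refine (Fintype.sum_equiv (Equiv.piCongrRight fun _ : Fin D => Equiv.mulLeft₀ u hu0)
      (fun t => sq (MvPolynomial.eval₂ ρ (fun l => u * t l) P)) (fun t => sq (MvPolynomial.eval₂ ρ t P)) fun t => ?_).symm
    rfl
  rw [sum_congr rfl fun t _ => h3 t, sum_neg_distrib] at h4
  have h5 : ∑ t : Fin D → ZMod p, sq (MvPolynomial.eval₂ ρ t P) = 0 := by linarith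
  rw [h5, zero_div]

end

section
variable {K : Type} [Field K] [NumberField K] {D : ℕ}

/-- the quadratic residue symbol modulo a prime ideal -/
noncomputable def sy (v : HeightOneSpectrum (𝓞 K)) (a : 𝓞 K) : ℝ := sq (Ideal.Quotient.mk v.asIdeal a)

/-- the value of the form -/
noncomputable def ev (P : MvPolynomial (Fin D) (𝓞 K)) (m : Fin D → ℤ) : 𝓞 K := MvPolynomial.eval (fun l => (m l : 𝓞 K)) P

lemma mk_ev (P : MvPolynomial (Fin D) (𝓞 K)) (m : Fin D → ℤ) {S : Type} [CommRing S] (ρ : 𝓞 K →+* S) :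
    ρ (ev P m) = MvPolynomial.eval₂ ρ (fun l => (m l : S)) P := by
  unfold ev
  rw [MvPolynomial.eval, MvPolynomial.coe_eval₂Hom, MvPolynomial.hom_eval₂]
  simp

lemma sy_per (P : MvPolynomial (Fin D) (𝓞 K)) (v : HeightOneSpectrum (𝓞 K)) (p : ℕ) (hv : (p : 𝓞 K) ∈ v.asIdeal)
    (m m' : Fin D → ℤ) (h : ∀ l, (p : ℤ) ∣ m l - m' l) : sy v (ev P m) = sy v (ev P m') := by
  unfold sy
  rw [mk_ev, mk_ev]
  congr 2
  funext l
  obtain ⟨a, ha⟩ := h l
  have h1 : (p : 𝓞 K ⧸ v.asIdeal) = 0 := by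
    rw [← map_natCast (Ideal.Quotient.mk v.asIdeal)]
    exact Ideal.Quotient.eq_zero_iff_mem.2 hv
  have h2 : ((m l - m' l : ℤ) : 𝓞 K ⧸ v.asIdeal) = 0 := by
    rw [ha]
    push_cast
    rw [h1, zero_mul]
  push_cast at h2
  exact sub_eq_zero.1 h2

lemma sy_mean (P : MvPolynomial (Fin D) (𝓞 K)) (k : ℕ) (hP : P.IsHomogeneous k) (hk : Odd k) (v : HeightOneSpectrum (𝓞 K))
    (p : ℕ) (hp : p.Prime) (h2 : p ≠ 2) (hv : Ideal.absNorm v.asIdeal = p) : meanD p D (fun m => sy v (ev P m)) = 0 := by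
  obtain ⟨e⟩ := quot_iso v p hp hv
  rw [← mean_form P k hP hk p hp h2 ((e.symm : (𝓞 K ⧸ v.asIdeal) →+* ZMod p).comp (Ideal.Quotient.mk v.asIdeal))]
  congr 1
  funext m
  rw [← mk_ev]
  unfold sy
  exact (sq_iso e.symm _).symm

lemma p_mem (v : HeightOneSpectrum (𝓞 K)) (p : ℕ) (hv : Ideal.absNorm v.asIdeal = p) : (p : 𝓞 K) ∈ v.asIdeal := by
  rw [← hv]
  exact Ideal.absNorm_mem _

/-- the local functions -/
noncomputable def phi (P : MvPolynomial (Fin D) (𝓞 K)) (u : ℕ → HeightOneSpectrum (𝓞 K) → ℝ) (i p : ℕ) (m : Fin D → ℤ) : ℝ :=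
  (∑ v ∈ Vd K p, u i v * sy v (ev P m)) / (Module.finrank ℤ (𝓞 K) + 1)

lemma phi_abs (P : MvPolynomial (Fin D) (𝓞 K)) (u : ℕ → HeightOneSpectrum (𝓞 K) → ℝ) (i p : ℕ) (b : ℝ) (hb : 0 ≤ b)
    (hu : ∀ v ∈ Vd K p, |u i v| ≤ b) (hp : p.Prime) (m : Fin D → ℤ) : |phi P u i p m| ≤ b := by
  have hn0 : (0 : ℝ) ≤ Module.finrank ℤ (𝓞 K) := Nat.cast_nonneg _
  unfold phi
  rw [abs_div, abs_of_pos (by positivity : (0 : ℝ) < (Module.finrank ℤ (𝓞 K) : ℝ) + 1), div_le_iff₀ (by positivity)]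
  have h1 : ∀ v ∈ Vd K p, |u i v * sy v (ev P m)| ≤ b := by
    intro v hv
    rw [abs_mul]
    calc |u i v| * |sy v (ev P m)| ≤ b * 1 := mul_le_mul (hu v hv) (sq_abs _) (abs_nonneg _) hb
      _ = b := mul_one _
  refine (abs_sum_le_sum_abs _ _).trans ((sum_le_sum h1).trans ?_)
  rw [sum_const, nsmul_eq_mul, mul_comm]
  have := card_Vd (K := K) p hp _ le_rfl
  exact mul_le_mul_of_nonneg_left (by linarith) hb

lemma phi_sq (P : MvPolynomial (Fin D) (𝓞 K)) (u : ℕ → HeightOneSpectrum (𝓞 K) → ℝ) (i p : ℕ) (hp : p.Prime) (m : Fin D → ℤ) :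
    phi P u i p m ^ 2 ≤ ∑ v ∈ Vd K p, u i v ^ 2 := by
  have hn0 : (0 : ℝ) ≤ Module.finrank ℤ (𝓞 K) := Nat.cast_nonneg _
  have hcard := card_Vd (K := K) p hp _ le_rfl
  unfold phi
  rw [div_pow, div_le_iff₀ (by positivity)]
  have h1 := sq_sum_le_card_mul_sum_sq (s := Vd K p) (f := fun v => u i v * sy v (ev P m))
  have h2 : ∑ v ∈ Vd K p, (u i v * sy v (ev P m)) ^ 2 ≤ ∑ v ∈ Vd K p, u i v ^ 2 := by
    refine sum_le_sum fun v _ => ?_
    rw [mul_pow]
    have h3 : sy v (ev P m) ^ 2 ≤ 1 := by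
      rw [← _root_.sq_abs]
      exact pow_le_one₀ (abs_nonneg _) (sq_abs _)
    calc u i v ^ 2 * sy v (ev P m) ^ 2 ≤ u i v ^ 2 * 1 := mul_le_mul_of_nonneg_left h3 (_root_.sq_nonneg _)
      _ = _ := mul_one _
  have h4 : 0 ≤ ∑ v ∈ Vd K p, u i v ^ 2 := sum_nonneg fun v _ => _root_.sq_nonneg _
  calc (∑ v ∈ Vd K p, u i v * sy v (ev P m)) ^ 2 ≤ ((Vd K p).card : ℝ) * ∑ v ∈ Vd K p, (u i v * sy v (ev P m)) ^ 2 := h1
    _ ≤ ((Vd K p).card : ℝ) * ∑ v ∈ Vd K p, u i v ^ 2 := mul_le_mul_of_nonneg_left h2 (Nat.cast_nonneg _)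
    _ ≤ ((Module.finrank ℤ (𝓞 K) : ℝ) + 1) ^ 2 * ∑ v ∈ Vd K p, u i v ^ 2 := by
      apply mul_le_mul_of_nonneg_right _ h4
      nlinarith
    _ = _ := mul_comm _ _

lemma phi_per (P : MvPolynomial (Fin D) (𝓞 K)) (u : ℕ → HeightOneSpectrum (𝓞 K) → ℝ) (i p : ℕ) (m m' : Fin D → ℤ)
    (h : ∀ l, (p : ℤ) ∣ m l - m' l) : phi P u i p m = phi P u i p m' := by
  unfold phi
  congr 1
  refine sum_congr rfl fun v hv => ?_
  rw [sy_per P v p (p_mem v p ((mem_Vd p v).1 hv)) m m' h]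

lemma phi_mean (P : MvPolynomial (Fin D) (𝓞 K)) (k : ℕ) (hP : P.IsHomogeneous k) (hk : Odd k)
    (u : ℕ → HeightOneSpectrum (𝓞 K) → ℝ) (i p : ℕ) (hp : p.Prime) (h2 : p ≠ 2) : meanD p D (phi P u i p) = 0 := by
  have h1 : phi P u i p = fun m => ∑ v ∈ Vd K p, (u i v / (Module.finrank ℤ (𝓞 K) + 1)) * sy v (ev P m) := by
    funext m
    unfold phi
    rw [sum_div]
    exact sum_congr rfl fun v _ => by ring
  rw [h1, meanD_lin]
  refine sum_eq_zero fun v hv => ?_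
  rw [sy_mean P k hP hk v p hp h2 ((mem_Vd p v).1 hv), mul_zero]

end

end Pool.Agent.T3h87.QT
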