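import Pool.Agent.T3h87.QT.Prod
import Pool.Agent.T3h87.LT.Sps2

/-!
# Truncated Euler products with quadratic twists: the theorem
-/

set_option autoImplicit false

namespace Pool.Agent.T3h87.QT

open Finset NumberField IsDedekindDomain Filter
open Pool.Agent.N842.HS (VT mem_VT norm_card prime_above card_high res_char)
open Pool.Agent.N794.CG (meanD meanD_eq)
open Pool.Agent.R459.Eq (pri mem_pri)
open Pool.Agent.T3h87.HK (Vd mem_Vd card_Vd quot_iso)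
open Pool.Agent.T3h87.LT

lemma fin_num (n d : ℕ) (C₁ : ℝ) (hC₁ : 0 ≤ C₁) (δ ε : ℝ) (hδ : 0 < δ) (hε : ε ≤ δ / 2) : ∃ X₁ : ℕ, 1 ≤ X₁ ∧ ∀ x : ℕ, X₁ ≤ x →
    ((n : ℝ) + 1) * (d + 1) * ((x : ℝ) ^ (δ / 2) + 3 * (x : ℝ) ^ (δ / 4) * (3 + Real.log x)) + C₁ * (x : ℝ) ^ ε ≤ (x : ℝ) ^ δ := by
  obtain ⟨C, hC⟩ : ∃ C : ℝ, C = ((n : ℝ) + 1) * (d + 1) * (10 + 12 / δ) + C₁ := ⟨_, rfl⟩
  have h1 : ∀ᶠ x : ℕ in atTop, C ≤ (x : ℝ) ^ (δ / 2) :=
    ((tendsto_rpow_atTop (by positivity : 0 < δ / 2)).comp tendsto_natCast_atTop_atTop).eventually_ge_atTop _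
  obtain ⟨X₁, hX₁⟩ := eventually_atTop.1 h1
  refine ⟨X₁ + 1, by omega, fun x hx => ?_⟩
  have h2 := hX₁ x (by omega)
  have hx1 : (1 : ℝ) ≤ x := by exact_mod_cast (by omega : 1 ≤ x)
  have hx0 : (0 : ℝ) < x := by linarith
  have hn0 : (0 : ℝ) ≤ n := Nat.cast_nonneg _
  have hd0 : (0 : ℝ) ≤ d := Nat.cast_nonneg _
  have hxε : (x : ℝ) ^ ε ≤ (x : ℝ) ^ (δ / 2) := Real.rpow_le_rpow_of_exponent_le hx1 hε
  obtain ⟨A, hA⟩ : ∃ A : ℝ, A = (x : ℝ) ^ (δ / 4) := ⟨_, rfl⟩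
  have hA1 : 1 ≤ A := by rw [hA]; exact Real.one_le_rpow hx1 (by positivity)
  have e1 : (x : ℝ) ^ (δ / 2) = A * A := by
    rw [hA, ← Real.rpow_add hx0]
    congr 1
    ring
  have e2 : (x : ℝ) ^ δ = A * A * (A * A) := by
    rw [← e1, ← Real.rpow_add hx0]
    congr 1
    ring
  have hlog : Real.log x ≤ 4 / δ * A := by
    have h5 := Real.log_le_rpow_div hx0.le (by positivity : 0 < δ / 4)
    rw [hA]
    refine h5.trans (le_of_eq ?_)
    field_simp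
  have hAA : A ≤ A * A := by nlinarith
  rw [e1] at h2 hxε
  rw [e2, e1, ← hA]
  have h3 : (A * A) + 3 * A * (3 + Real.log x) ≤ (10 + 12 / δ) * (A * A) := by
    have h5 := mul_le_mul_of_nonneg_left hlog (by positivity : 0 ≤ 3 * A)
    have h6 : 3 * A * (4 / δ * A) = 12 / δ * (A * A) := by ring
    nlinarith
  calc ((n : ℝ) + 1) * (d + 1) * ((A * A) + 3 * A * (3 + Real.log x)) + C₁ * (x : ℝ) ^ ε ≤
        ((n : ℝ) + 1) * (d + 1) * ((10 + 12 / δ) * (A * A)) + C₁ * (A * A) := by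
        apply add_le_add
        · exact mul_le_mul_of_nonneg_left h3 (by positivity)
        · exact mul_le_mul_of_nonneg_left hxε hC₁
    _ = C * (A * A) := by rw [hC]; ring
    _ ≤ (A * A) * (A * A) := mul_le_mul_of_nonneg_right h2 (by positivity)

lemma meanD_abs (p D : ℕ) (hp : 0 < p) (b : ℝ) (f : (Fin D → ℤ) → ℝ) (hf : ∀ m, |f m| ≤ b) : |meanD p D f| ≤ b := by
  have h0 : meanD p D (fun _ => b * 1) = b := by
    rw [meanD_mul p D b (fun _ => 1), meanD_one p D hp, mul_one]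
  rw [abs_le]
  constructor
  · have h1 := meanD_mono p D (fun m => (-1) * f m) (fun _ => b * 1) fun m => by
      have := (abs_le.1 (hf m)).1
      linarith
    rw [meanD_mul, h0] at h1
    linarith
  · have h1 := meanD_mono p D f (fun _ => b * 1) fun m => by
      have := (abs_le.1 (hf m)).2
      linarith
    rw [h0] at h1
    exact h1

section
variable {K : Type} [Field K] [NumberField K]

lemma size_le {d : ℕ} {θ ε B : ℝ} (hθ : θ < 1 / 2) {α : HeightOneSpectrum (𝓞 K) → Fin d → ℂ} (hα : Mod θ ε B α)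
    (v : HeightOneSpectrum (𝓞 K)) (i : Fin d) : ‖α v i‖ ≤ √(Ideal.absNorm v.asIdeal : ℝ) := by
  have hN := norm_two v
  refine (hα.size v i).trans ?_
  rw [Real.sqrt_eq_rpow]
  exact Real.rpow_le_rpow_of_exponent_le (by linarith) hθ.le

open Classical in
lemma sysb_of {D d : ℕ} (P : MvPolynomial (Fin D) (𝓞 K)) {θ ε B : ℝ} (hθ : θ < 1 / 2)
    (α : ℕ → HeightOneSpectrum (𝓞 K) → Fin d → ℂ) (hα : ∀ j, Mod θ ε B (α j)) : SysB B ε (phi P fun j => wt (α j)) := by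
  refine ⟨fun i p _ m m' h => phi_per P _ i p m m' h, fun i p hp m => ?_, fun j y hy => ?_⟩
  · refine phi_abs P _ i p _ (Real.sqrt_nonneg _) (fun v hv => ?_) hp m
    refine wt_abs (α i) v _ (Real.sqrt_nonneg _) fun l => ?_
    have h1 := size_le hθ (hα i) v l
    rwa [(mem_Vd p v).1 hv] at h1
  · have hy0 : (0 : ℝ) < y := by exact_mod_cast hy
    have h1 : ∀ p ∈ pri y, meanD p D (fun m => phi P (fun j => wt (α j)) j p m ^ 2) ≤ ∑ v ∈ Vd K p, ∑ i, ‖α j v i‖ ^ 2 := by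
      intro p hp
      have hpp := (mem_pri.1 hp).2
      refine (le_abs_self _).trans (meanD_abs p D hpp.pos _ _ fun m => ?_)
      rw [abs_of_nonneg (by positivity)]
      exact (phi_sq P _ j p hpp m).trans (sum_le_sum fun v _ => wt_sq (α j) v)
    refine (sum_le_sum h1).trans ?_
    rw [← fibre_sum y (fun v => ∑ i, ‖α j v i‖ ^ 2)]
    have h2 : ∑ v ∈ (VT K y).filter (fun v => (Ideal.absNorm v.asIdeal).Prime), ∑ i, ‖α j v i‖ ^ 2 ≤
        ∑ v ∈ VT K y, (y : ℝ) * ∑ i, ‖α j v i‖ ^ 2 / (Ideal.absNorm v.asIdeal : ℝ) := by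
      refine (sum_le_sum_of_subset_of_nonneg (filter_subset _ _) fun v _ _ => sum_nonneg fun i _ => by positivity).trans ?_
      refine sum_le_sum fun v hv => ?_
      rw [mul_sum]
      refine sum_le_sum fun i _ => ?_
      have hN := norm_two v
      have hN2 : (Ideal.absNorm v.asIdeal : ℝ) ≤ y := by exact_mod_cast (mem_VT y v).1 hv
      rw [mul_div_assoc', le_div_iff₀ (by linarith), mul_comm]
      exact mul_le_mul_of_nonneg_right hN2 (by positivity)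
    refine h2.trans ?_
    rw [← mul_sum]
    calc (y : ℝ) * ∑ v ∈ VT K y, ∑ i, ‖α j v i‖ ^ 2 / (Ideal.absNorm v.asIdeal : ℝ) ≤ y * (B * (y : ℝ) ^ ε) :=
          mul_le_mul_of_nonneg_left ((hα j).square y hy) hy0.le
      _ = B * (y : ℝ) ^ (1 + ε) := by
        rw [Real.rpow_add hy0, Real.rpow_one]
        ring

open Classical in
/-- **Truncated Euler products at the central point, twisted by the quadratic characters of the values of a form.** -/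
theorem qt_main {D d k : ℕ} (P : MvPolynomial (Fin D) (𝓞 K)) (hP : P.IsHomogeneous k) (hk : Odd k)
    (F : Fin D → ℤ → Set Fam) (hF : ∀ l, Kind (F l)) (θ B : ℝ) (hθ : θ < 1 / 2) (hB : 1 ≤ B) (δ : ℝ) (hδ : 0 < δ) (hδ1 : δ ≤ 1) :
    ∃ (W e M : ℕ) (η : ℝ), 1 ≤ W ∧ 1 ≤ M ∧ 0 < η ∧ ((∀ l, Sharp (F l)) → e = 0) ∧ ∀ κ : Fin D → ℤ, (∀ l, κ l ≠ 0) → ∃ X₀ : ℕ, ∀ X : ℕ, X₀ ≤ X →
    ∀ f : Fin D → Fam, (∀ l, f l ∈ F l (κ l)) →
    ∀ α : ℕ → HeightOneSpectrum (𝓞 K) → Fin d → ℂ, (∀ j, Mod θ (δ / 16) B (α j)) →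
    ∀ E : Finset (∀ l, (f l).ι), E ⊆ Fintype.piFinset (fun l => (f l).set) →
    (∀ i ∈ E, ∃ x : ℕ, X ≤ x ∧ (∀ l, (x : ℝ) ^ W ≤ (f l).size) ∧ ∃ j : ℕ, (j + 1) ^ M ≤ x ∧
      (x : ℝ) ^ δ < |Real.log ‖trunc (α j) (ev P (fun l => (f l).val (i l))) x‖|) →
    ∑ i ∈ E, ∏ l, (f l).wt (i l) ≤ (∑ l, (1 + |Real.log (f l).size|) ^ e) * (X : ℝ) ^ (-η) := by
  obtain ⟨W, e, M, ρ, hW, hM, hρ, hS, H⟩ := real_avg D F hF B hB (δ / 4) (by positivity) (by linarith)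
  obtain ⟨γ, hγ⟩ : ∃ γ : ℝ, γ = δ / 2 := ⟨_, rfl⟩
  have hγ0 : 0 < γ := by rw [hγ]; positivity
  obtain ⟨M', hM'⟩ : ∃ M' : ℕ, M' = ⌈(M : ℝ) / γ⌉₊ + 1 := ⟨_, rfl⟩
  have hMM' : (M : ℝ) ≤ γ * M' := by
    have h1 : (M : ℝ) / γ ≤ M' := by
      rw [hM']
      push_cast
      linarith [Nat.le_ceil ((M : ℝ) / γ)]
    rw [div_le_iff₀ hγ0] at h1
    linarith
  refine ⟨W, e, M', γ * ρ / 2, hW, by omega, by positivity, hS, fun κ hκ => ?_⟩
  obtain ⟨X₂, J⟩ := H κ hκ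
  obtain ⟨c, hc⟩ : ∃ c : ℝ, c = (1 - (2 : ℝ) ^ (θ - 1 / 2))⁻¹ := ⟨_, rfl⟩
  have hc0 : 0 ≤ c := by
    have h1 : (2 : ℝ) ^ (θ - 1 / 2) < 1 := Real.rpow_lt_one_of_one_lt_of_neg (by norm_num) (by linarith)
    rw [hc]
    exact inv_nonneg.2 (by linarith)
  obtain ⟨X₁, hX₁, hfin⟩ := fin_num (Module.finrank ℤ (𝓞 K)) d ((1 + c) * B) (by positivity) δ (δ / 16) hδ (by linarith)
  have ev1 : ∀ᶠ X : ℕ in atTop, (X₂ : ℝ) + 2 ≤ (X : ℝ) ^ γ :=
    ((tendsto_rpow_atTop hγ0).comp tendsto_natCast_atTop_atTop).eventually_ge_atTop _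
  have ev2 : ∀ᶠ X : ℕ in atTop, (2 : ℝ) ^ ρ ≤ (X : ℝ) ^ (γ * ρ / 2) :=
    ((tendsto_rpow_atTop (by positivity : 0 < γ * ρ / 2)).comp tendsto_natCast_atTop_atTop).eventually_ge_atTop _
  obtain ⟨X₃, hX₃⟩ := eventually_atTop.1 (ev1.and ev2)
  refine ⟨X₁ + X₃, fun X hX f hf α hα E hE hbad => ?_⟩
  obtain ⟨g1, g2⟩ := hX₃ X (by omega)
  have hX1 : 1 ≤ X := by omega
  have hXr1 : (1 : ℝ) ≤ X := by exact_mod_cast hX1
  have hX0 : (0 : ℝ) < X := by linarith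
  have hXδ0 : 0 < (X : ℝ) ^ γ := Real.rpow_pos_of_pos hX0 _
  have hX₂0 : (0 : ℝ) ≤ X₂ := Nat.cast_nonneg _
  obtain ⟨X', hX'⟩ : ∃ X' : ℕ, X' = ⌊(X : ℝ) ^ γ⌋₊ := ⟨_, rfl⟩
  have hX'le : (X' : ℝ) ≤ (X : ℝ) ^ γ := by rw [hX']; exact Nat.floor_le hXδ0.le
  have hX'lt : (X : ℝ) ^ γ < X' + 1 := by rw [hX']; exact Nat.lt_floor_add_one _
  have hX₂X' : X₂ ≤ X' := by
    have : (X₂ : ℝ) < X' := by linarith
    exact_mod_cast this.le
  have hX'1 : (1 : ℝ) ≤ X' := by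
    have : (X₂ : ℝ) + 1 < X' := by linarith
    linarith
  have main : ∑ i ∈ E, ∏ l, (f l).wt (i l) ≤ (∑ l, (1 + |Real.log (f l).size|) ^ e) * (X' : ℝ) ^ (-ρ) := by
    refine J X' hX₂X' f hf (phi P fun j => wt (α j)) (by
      have h := sysb_of P hθ α hα
      rwa [show δ / 16 = δ / 4 / 4 by ring] at h) E hE fun i hi => ?_
    obtain ⟨x, hXx, hsz, j, hj, hlt⟩ := hbad i hi
    obtain ⟨m, hm⟩ : ∃ m : Fin D → ℤ, m = fun l => (f l).val (i l) := ⟨_, rfl⟩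
    rw [← hm] at hlt ⊢
    by_contra hno
    push Not at hno
    have hx1 : 1 ≤ x := by omega
    have hxr1 : (1 : ℝ) ≤ x := by exact_mod_cast hx1
    have hx0 : (0 : ℝ) < x := by linarith
    -- the point where the sums are cut
    obtain ⟨Y, hY⟩ : ∃ Y : ℕ, Y = max X' ((j + 1) ^ M) := ⟨_, rfl⟩
    have hY1 : 1 ≤ Y := by
      rw [hY]
      exact le_max_of_le_right (Nat.one_le_pow _ _ (by omega))
    have hYδ : (Y : ℝ) ≤ (x : ℝ) ^ γ := by
      rw [hY]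
      push_cast
      apply max_le
      · refine hX'le.trans ?_
        exact Real.rpow_le_rpow hX0.le (by exact_mod_cast hXx) hγ0.le
      · have hb1 : (1 : ℝ) ≤ (j : ℝ) + 1 := by have : (0 : ℝ) ≤ j := Nat.cast_nonneg _; linarith
        have h1 : (((j : ℝ) + 1) ^ M' : ℝ) ≤ x := by exact_mod_cast hj
        calc ((j : ℝ) + 1) ^ M = ((j : ℝ) + 1) ^ (M : ℝ) := (Real.rpow_natCast _ _).symm
          _ ≤ ((j : ℝ) + 1) ^ ((M' : ℝ) * γ) := Real.rpow_le_rpow_of_exponent_le hb1 (by linarith)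
          _ = (((j : ℝ) + 1) ^ M') ^ γ := by rw [Real.rpow_mul (by linarith), Real.rpow_natCast]
          _ ≤ (x : ℝ) ^ γ := Real.rpow_le_rpow (by positivity) h1 hγ0.le
    have hYx : Y ≤ x := by
      have h1 : (Y : ℝ) ≤ x := hYδ.trans (by
        calc (x : ℝ) ^ γ ≤ (x : ℝ) ^ (1 : ℝ) := Real.rpow_le_rpow_of_exponent_le hxr1 (by linarith)
          _ = x := Real.rpow_one _)
      exact_mod_cast h1
    obtain ⟨φ, hφ⟩ : ∃ φ : ℕ → ℝ, φ = fun p => phi P (fun j => wt (α j)) j p m := ⟨_, rfl⟩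
    have hφ2 : ∀ p, p.Prime → ∀ m', |phi P (fun j => wt (α j)) j p m'| ≤ √(p : ℝ) := fun p hp m' =>
      (sysb_of P hθ α hα).bd j p hp m'
    have hφ1 : ∀ p, p.Prime → |φ p| ≤ √(p : ℝ) := by
      intro p hp
      rw [hφ]
      exact hφ2 p hp m
    obtain ⟨A, hA⟩ : ∃ A : ℝ, A = 3 * (x : ℝ) ^ (δ / 4) := ⟨_, rfl⟩
    have hA0 : 0 ≤ A := by rw [hA]; positivity
    have hS : ∀ y, Y ≤ y → y ≤ x → |∑ p ∈ pri y, φ p| ≤ A * √(y : ℝ) := by
      intro y hYy hyx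
      have hy1 : 1 ≤ y := by omega
      have hyr1 : (1 : ℝ) ≤ y := by exact_mod_cast hy1
      have hy0 : (0 : ℝ) < y := by linarith
      have h1 : X' ≤ y := (le_max_left _ _).trans (hY ▸ hYy)
      have h2 : (j + 1) ^ M ≤ y := (le_max_right _ _).trans (hY ▸ hYy)
      have h3 : ∀ l, (y : ℝ) ^ W ≤ (f l).size := fun l =>
        (pow_le_pow_left₀ hy0.le (by exact_mod_cast hyx) W).trans (hsz l)
      have h4 := hno y h1 h3 j h2
      have h5 : |∑ p ∈ pri y, meanD p D (phi P (fun j => wt (α j)) j p)| ≤ 2 := by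
        have h6 : ∀ p ∈ pri y, |meanD p D (phi P (fun j => wt (α j)) j p)| ≤ if p = 2 then 2 else 0 := by
          intro p hp
          have hpp := (mem_pri.1 hp).2
          split_ifs with hp2
          · refine meanD_abs p D hpp.pos _ _ fun m => (hφ2 p hpp m).trans ?_
            rw [hp2, Real.sqrt_le_left (by norm_num)]
            norm_num
          · rw [phi_mean P k hP hk _ j p hpp hp2, abs_zero]
        refine (abs_sum_le_sum_abs _ _).trans ((sum_le_sum h6).trans ?_)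
        rw [sum_ite_eq']
        split_ifs <;> norm_num
      have h7 : ∑ p ∈ pri y, φ p = ∑ p ∈ pri y, (phi P (fun j => wt (α j)) j p m - meanD p D (phi P (fun j => wt (α j)) j p)) +
          ∑ p ∈ pri y, meanD p D (phi P (fun j => wt (α j)) j p) := by
        rw [← sum_add_distrib, hφ]
        exact sum_congr rfl fun p _ => by ring
      have h8 : |∑ p ∈ pri y, φ p| ≤ (y : ℝ) ^ (1 / 2 + δ / 4) + 2 := by
        rw [h7]
        exact (abs_add_le _ _).trans (add_le_add h4 h5)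
      have h9 : (1 : ℝ) ≤ (y : ℝ) ^ (1 / 2 + δ / 4) := Real.one_le_rpow hyr1 (by positivity)
      have h10 : (y : ℝ) ^ (1 / 2 + δ / 4) = (y : ℝ) ^ (δ / 4) * √(y : ℝ) := by
        rw [add_comm, Real.rpow_add hy0, Real.sqrt_eq_rpow]
      have h11 : (y : ℝ) ^ (δ / 4) ≤ (x : ℝ) ^ (δ / 4) := Real.rpow_le_rpow hy0.le (by exact_mod_cast hyx) (by positivity)
      calc |∑ p ∈ pri y, φ p| ≤ 3 * (y : ℝ) ^ (1 / 2 + δ / 4) := by linarith
        _ = 3 * (y : ℝ) ^ (δ / 4) * √(y : ℝ) := by rw [h10]; ring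
        _ ≤ A * √(y : ℝ) := by
          rw [hA]
          exact mul_le_mul_of_nonneg_right (by linarith) (Real.sqrt_nonneg _)
    have h1 := abel φ hφ1 Y x hY1 hYx A hA0 hS
    have h2 := log_bound (α j) θ (δ / 16) B hθ (hα j) (ev P m) x hx1
    rw [← hc] at h2
    have h4 := hfin x (by omega)
    have h5 : |∑ p ∈ pri x, φ p / √(p : ℝ)| ≤ (x : ℝ) ^ (δ / 2) + 3 * (x : ℝ) ^ (δ / 4) * (3 + Real.log x) := by
      rw [hA] at h1
      rw [hγ] at hYδ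
      linarith
    have h6 : ∑ p ∈ pri x, (∑ v ∈ Vd K p, wt (α j) v * sy v (ev P m)) / (Module.finrank ℤ (𝓞 K) + 1) / √(p : ℝ) =
        ∑ p ∈ pri x, φ p / √(p : ℝ) := by
      rw [hφ]
      rfl
    rw [h6] at h2
    have h7 := mul_le_mul_of_nonneg_left h5 (by positivity : 0 ≤ ((Module.finrank ℤ (𝓞 K) : ℝ) + 1) * (d + 1))
    linarith
  refine main.trans ?_
  apply mul_le_mul_of_nonneg_left _ (sum_nonneg fun l _ => by positivity)
  have h1 : (X : ℝ) ^ γ / 2 ≤ X' := by linarith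
  calc (X' : ℝ) ^ (-ρ) ≤ ((X : ℝ) ^ γ / 2) ^ (-ρ) := Real.rpow_le_rpow_of_nonpos (by positivity) h1 (by linarith)
    _ = (X : ℝ) ^ (-(γ * ρ)) * 2 ^ ρ := by
      rw [Real.div_rpow hXδ0.le (by norm_num), ← Real.rpow_mul hX0.le, Real.rpow_neg (by norm_num : (0 : ℝ) ≤ 2), div_inv_eq_mul]
      congr 2
      ring
    _ ≤ (X : ℝ) ^ (-(γ * ρ)) * (X : ℝ) ^ (γ * ρ / 2) := mul_le_mul_of_nonneg_left g2 (by positivity)
    _ = _ := by
      rw [← Real.rpow_add hX0]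
      congr 1
      ring

end

end Pool.Agent.T3h87.QT
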