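import Pool.Agent.T3h87.QT.Loc
import Pool.Agent.T3h87.LT.Sps
import Pool.Agent.T3h87.QT.Avg

/-!
# Truncated Euler products at the central point
-/

set_option autoImplicit false

namespace Pool.Agent.T3h87.QT

open Finset NumberField IsDedekindDomain
open Pool.Agent.N842.HS (VT mem_VT norm_card prime_above card_high res_char)
open Pool.Agent.N794.CG (meanD meanD_eq)
open Pool.Agent.R459.Eq (pri mem_pri)
open Pool.Agent.T3h87.HK (Vd mem_Vd card_Vd quot_iso)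
open Pool.Agent.T3h87.LT

lemma sum_pri (x : ℕ) (g : ℕ → ℝ) : ∑ p ∈ pri x, g p = ∑ n ∈ range (x + 1), if n.Prime then g n else 0 := by
  unfold pri
  rw [sum_filter]

lemma step_ineq (y : ℕ) (hy : 1 ≤ y) : 1 / √(y : ℝ) - 1 / √(((y + 1 : ℕ) : ℝ)) ≤ 1 / (((y : ℝ) + 1) * √(y : ℝ)) := by
  have hy0 : (0 : ℝ) < y := by exact_mod_cast hy
  obtain ⟨a, ha'⟩ : ∃ a, a = √(y : ℝ) := ⟨_, rfl⟩
  obtain ⟨b, hb'⟩ : ∃ b, b = √(((y + 1 : ℕ) : ℝ)) := ⟨_, rfl⟩
  have ha : 0 < a := by rw [ha']; exact Real.sqrt_pos.2 hy0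
  have hb : 0 < b := by rw [hb']; exact Real.sqrt_pos.2 (by positivity)
  have e1 : b * b = (y : ℝ) + 1 := by
    rw [hb', Real.mul_self_sqrt (by positivity)]
    push_cast
    ring
  have e2 : a * a = (y : ℝ) := by rw [ha', Real.mul_self_sqrt hy0.le]
  have hab : a ≤ b := by
    rw [ha', hb']
    exact Real.sqrt_le_sqrt (by push_cast; linarith)
  have e3 : a * a ≤ a * b := mul_le_mul_of_nonneg_left hab ha.le
  rw [← ha', ← hb', ← e1, div_sub_div _ _ ha.ne' hb.ne', div_le_div_iff₀ (by positivity) (by positivity)]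
  have h5 : (b - a) * b ≤ 1 := by
    have : (b - a) * b = b * b - a * b := by ring
    linarith
  have h6 := mul_le_mul_of_nonneg_right h5 (by positivity : 0 ≤ a * b)
  calc (1 * b - a * 1) * (b * b * a) = (b - a) * b * (a * b) := by ring
    _ ≤ _ := h6

/-- partial summation -/
lemma abel (φ : ℕ → ℝ) (hφ : ∀ p, p.Prime → |φ p| ≤ √(p : ℝ)) (Y x : ℕ) (hY : 1 ≤ Y) (hYx : Y ≤ x) (M : ℝ) (hM0 : 0 ≤ M)
    (hM : ∀ y, Y ≤ y → y ≤ x → |∑ p ∈ pri y, φ p| ≤ M * √(y : ℝ)) :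
    |∑ p ∈ pri x, φ p / √(p : ℝ)| ≤ Y + M * (3 + Real.log x) := by
  obtain ⟨U, hU⟩ : ∃ U : ℕ → ℝ, U = fun y => ∑ p ∈ pri y, φ p / √(p : ℝ) - (∑ p ∈ pri y, φ p) / √(y : ℝ) := ⟨_, rfl⟩
  have key : ∀ k : ℕ, Y + k ≤ x → |U (Y + k)| ≤ Y + M * (1 + ∑ n ∈ range (Y + k), 1 / ((n : ℝ) + 1)) := by
    intro k
    induction k with
    | zero =>
      intro _
      rw [add_zero]
      have h1 : |∑ p ∈ pri Y, φ p / √(p : ℝ)| ≤ Y := by
        have h0 : ∀ p ∈ pri Y, |φ p / √(p : ℝ)| ≤ 1 := by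
          intro p hp
          have hpp := (mem_pri.1 hp).2
          have hsp : 0 < √(p : ℝ) := Real.sqrt_pos.2 (by exact_mod_cast hpp.pos)
          rw [abs_div, abs_of_pos hsp, div_le_one hsp]
          exact hφ p hpp
        refine (abs_sum_le_sum_abs _ _).trans ((sum_le_sum h0).trans ?_)
        rw [sum_const, nsmul_eq_mul, mul_one]
        exact pri_card Y
      have hY0 : (0 : ℝ) < Y := by exact_mod_cast hY
      have hsY : 0 < √(Y : ℝ) := Real.sqrt_pos.2 hY0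
      have h2 : |(∑ p ∈ pri Y, φ p) / √(Y : ℝ)| ≤ M := by
        rw [abs_div, abs_of_pos hsY, div_le_iff₀ hsY]
        exact hM Y le_rfl hYx
      have h3 : 0 ≤ ∑ n ∈ range Y, 1 / ((n : ℝ) + 1) := sum_nonneg fun n _ => by positivity
      have h4 := abs_sub (∑ p ∈ pri Y, φ p / √(p : ℝ)) ((∑ p ∈ pri Y, φ p) / √(Y : ℝ))
      have h5 : 0 ≤ M * ∑ n ∈ range Y, 1 / ((n : ℝ) + 1) := mul_nonneg hM0 h3
      rw [hU]
      beta_reduce
      rw [mul_add, mul_one]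
      linarith
    | succ k ih =>
      intro hk
      have h1 := ih (by omega)
      obtain ⟨y, hy⟩ : ∃ y, y = Y + k := ⟨_, rfl⟩
      rw [← add_assoc, ← hy]
      rw [← hy] at h1
      have hy1 : 1 ≤ y := by omega
      have hy0 : (0 : ℝ) < y := by exact_mod_cast hy1
      have hsy : 0 < √(y : ℝ) := Real.sqrt_pos.2 hy0
      have hsy1 : 0 < √(((y + 1 : ℕ) : ℝ)) := Real.sqrt_pos.2 (by positivity)
      have h2 : U (y + 1) - U y = (∑ p ∈ pri y, φ p) * (1 / √(y : ℝ) - 1 / √(((y + 1 : ℕ) : ℝ))) := by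
        rw [hU]
        beta_reduce
        have e1 : ∑ p ∈ pri (y + 1), φ p / √(p : ℝ) = ∑ p ∈ pri y, φ p / √(p : ℝ) +
            if (y + 1).Prime then φ (y + 1) / √(((y + 1 : ℕ) : ℝ)) else 0 := by
          rw [sum_pri, sum_pri, sum_range_succ]
        have e2 : ∑ p ∈ pri (y + 1), φ p = ∑ p ∈ pri y, φ p + if (y + 1).Prime then φ (y + 1) else 0 := by
          rw [sum_pri, sum_pri, sum_range_succ]
        rw [e1, e2]
        split_ifs
        · ring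
        · ring
      have h3 := step_ineq y hy1
      have h4 : 0 ≤ 1 / √(y : ℝ) - 1 / √(((y + 1 : ℕ) : ℝ)) := by
        have h5 : √(y : ℝ) ≤ √(((y + 1 : ℕ) : ℝ)) := Real.sqrt_le_sqrt (by push_cast; linarith)
        have h6 := one_div_le_one_div_of_le hsy h5
        linarith
      have h5 : |U (y + 1) - U y| ≤ M * (1 / ((y : ℝ) + 1)) := by
        rw [h2, abs_mul, abs_of_nonneg h4]
        calc |∑ p ∈ pri y, φ p| * (1 / √(y : ℝ) - 1 / √(((y + 1 : ℕ) : ℝ))) ≤ (M * √(y : ℝ)) * (1 / (((y : ℝ) + 1) * √(y : ℝ))) :=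
              mul_le_mul (hM y (by omega) (by omega)) h3 h4 (by positivity)
          _ = _ := by field_simp
      have h6 := abs_add_le (U y) (U (y + 1) - U y)
      rw [add_sub_cancel] at h6
      rw [sum_range_succ, ← add_assoc, mul_add M (1 + _)]
      linarith
  have h1 := key (x - Y) (by omega)
  rw [show Y + (x - Y) = x by omega] at h1
  have hx1 : 1 ≤ x := by omega
  have hx0 : (0 : ℝ) < x := by exact_mod_cast hx1
  have hsx : 0 < √(x : ℝ) := Real.sqrt_pos.2 hx0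
  have h2 : ∑ n ∈ range x, 1 / ((n : ℝ) + 1) ≤ 1 + Real.log x := by
    have h3 := harmonic_le_one_add_log x
    unfold harmonic at h3
    push_cast at h3
    refine (le_of_eq (sum_congr rfl fun n _ => ?_)).trans h3
    rw [one_div]
  have h3 : |(∑ p ∈ pri x, φ p) / √(x : ℝ)| ≤ M := by
    rw [abs_div, abs_of_pos hsx, div_le_iff₀ hsx]
    exact hM x hYx le_rfl
  have h4 : ∑ p ∈ pri x, φ p / √(p : ℝ) = U x + (∑ p ∈ pri x, φ p) / √(x : ℝ) := by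
    rw [hU]
    ring
  rw [h4]
  refine (abs_add_le _ _).trans ?_
  have h5 := mul_le_mul_of_nonneg_left h2 hM0
  rw [mul_add, mul_one] at h1
  nlinarith

section
variable {K : Type} [Field K] [NumberField K]

/-- sums over prime ideals which are bounded in terms of the prime numbers below -/
lemma sum_above (x : ℕ) (hx : 1 ≤ x) (S : Finset (HeightOneSpectrum (𝓞 K))) (hS : S ⊆ VT K x) (g : HeightOneSpectrum (𝓞 K) → ℝ)
    (hg : ∀ v ∈ S, ∀ p f : ℕ, p.Prime → 1 ≤ f → Ideal.absNorm v.asIdeal = p ^ f → g v ≤ 1 / p) :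
    ∑ v ∈ S, g v ≤ Module.finrank ℤ (𝓞 K) * (1 + Real.log x) := by
  classical
  choose P f hP hf hPf hPv using res_char (K := K)
  have h1 : ∑ v ∈ S, g v ≤ ∑ v ∈ S, 1 / (P v : ℝ) := sum_le_sum fun v hv => hg v hv (P v) (f v) (hP v) (hf v) (hPf v)
  have hmaps : ∀ v ∈ S, P v ∈ Icc 1 x := by
    intro v hv
    rw [mem_Icc]
    refine ⟨(hP v).pos, ?_⟩
    have h2 := (mem_VT x v).1 (hS hv)
    rw [hPf v] at h2
    exact (Nat.le_self_pow (by have := hf v; omega) (P v)).trans h2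
  refine h1.trans ?_
  rw [← sum_fiberwise_of_maps_to hmaps]
  have h3 : ∀ p ∈ Icc 1 x, ∑ v ∈ S.filter (fun v => P v = p), 1 / (P v : ℝ) ≤ Module.finrank ℤ (𝓞 K) * (p : ℝ)⁻¹ := by
    intro p _
    have h4 : ∑ v ∈ S.filter (fun v => P v = p), 1 / (P v : ℝ) = ((S.filter (fun v => P v = p)).card : ℝ) * (p : ℝ)⁻¹ := by
      rw [sum_congr rfl fun v hv => by rw [(mem_filter.1 hv).2], sum_const, nsmul_eq_mul, one_div]
    rw [h4]
    apply mul_le_mul_of_nonneg_right _ (by positivity)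
    by_cases hp' : p.Prime
    · have h5 := prime_above K p hp' (S.filter (fun v => P v = p)) fun v hv1 => by
        rw [mem_filter] at hv1
        rw [← hv1.2]
        exact hPv v
      exact_mod_cast h5
    · have h5 : S.filter (fun v => P v = p) = ∅ := by
        rw [filter_eq_empty_iff]
        intro v _ h
        rw [← h] at hp'
        exact hp' (hP v)
      rw [h5, card_empty]
      push_cast
      positivity
  refine (sum_le_sum h3).trans ?_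
  rw [← mul_sum]
  apply mul_le_mul_of_nonneg_left _ (Nat.cast_nonneg _)
  have h6 := harmonic_le_one_add_log x
  rw [harmonic_eq_sum_Icc] at h6
  push_cast at h6
  exact h6

lemma norm_two (v : HeightOneSpectrum (𝓞 K)) : (2 : ℝ) ≤ (Ideal.absNorm v.asIdeal : ℝ) := by
  obtain ⟨p, f, hp, hf, hpf, -⟩ := res_char v
  rw [hpf]
  have h1 : p ≤ p ^ f := Nat.le_self_pow (by omega) p
  have h2 := hp.two_le
  exact_mod_cast h2.trans h1

/-- the truncated Euler product -/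
noncomputable def trunc {d : ℕ} (α : HeightOneSpectrum (𝓞 K) → Fin d → ℂ) (a : 𝓞 K) (x : ℕ) : ℂ :=
  ∏ v ∈ VT K x, ∏ i, (1 - α v i * (sy v a : ℂ) / ((√(Ideal.absNorm v.asIdeal : ℝ) : ℝ) : ℂ))⁻¹

lemma factor (z : ℂ) (N θ : ℝ) (hN : 2 ≤ N) (hθ : θ < 1 / 2) (hz : ‖z‖ ≤ N ^ (θ - 1 / 2)) :
    (1 - z)⁻¹ ≠ 0 ∧ |Real.log ‖(1 - z)⁻¹‖ - z.re| ≤ (1 - 2 ^ (θ - 1 / 2))⁻¹ * ‖z‖ ^ 2 := by
  have hN0 : 0 < N := by linarith
  have hc : (2 : ℝ) ^ (θ - 1 / 2) < 1 := Real.rpow_lt_one_of_one_lt_of_neg (by norm_num) (by linarith)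
  have h1 : N ^ (θ - 1 / 2) ≤ 2 ^ (θ - 1 / 2) := Real.rpow_le_rpow_of_nonpos (by norm_num) hN (by linarith)
  have h2 : ‖z‖ ≤ 2 ^ (θ - 1 / 2) := hz.trans h1
  have h3 : ‖z‖ < 1 := by linarith
  have h4 := Complex.norm_log_one_sub_inv_sub_self_le h3
  have hne : (1 - z) ≠ 0 := by
    intro h
    have : z = 1 := by
      have := sub_eq_zero.1 h
      exact this.symm
    rw [this, norm_one] at h3
    exact lt_irrefl _ h3
  refine ⟨inv_ne_zero hne, ?_⟩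
  have h5 : Real.log ‖(1 - z)⁻¹‖ - z.re = (Complex.log (1 - z)⁻¹ - z).re := by
    rw [Complex.sub_re, Complex.log_re]
  rw [h5]
  refine (Complex.abs_re_le_norm _).trans (h4.trans ?_)
  have h7 : (1 - ‖z‖)⁻¹ ≤ (1 - 2 ^ (θ - 1 / 2))⁻¹ := inv_anti₀ (by linarith) (by linarith)
  have h8 : 0 ≤ ‖z‖ ^ 2 := by positivity
  have h9 : 0 ≤ (1 - ‖z‖)⁻¹ := inv_nonneg.2 (by linarith)
  have h10 := mul_le_mul_of_nonneg_left h7 h8
  have h11 := mul_nonneg h8 h9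
  linarith

/-- the conditions on the parameters -/
structure Mod {d : ℕ} (θ ε B : ℝ) (α : HeightOneSpectrum (𝓞 K) → Fin d → ℂ) : Prop where
  size : ∀ v i, ‖α v i‖ ≤ (Ideal.absNorm v.asIdeal : ℝ) ^ θ
  square : ∀ y : ℕ, 1 ≤ y → ∑ v ∈ VT K y, ∑ i, ‖α v i‖ ^ 2 / (Ideal.absNorm v.asIdeal : ℝ) ≤ B * (y : ℝ) ^ ε
  high : ∀ y : ℕ, 1 ≤ y → ∀ S : Finset (HeightOneSpectrum (𝓞 K)), S ⊆ VT K y → (∀ v ∈ S, ¬ (Ideal.absNorm v.asIdeal).Prime) →
    ∑ v ∈ S, ∑ i, ‖α v i‖ / √(Ideal.absNorm v.asIdeal : ℝ) ≤ B * (y : ℝ) ^ ε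

lemma log_trunc {d : ℕ} (α : HeightOneSpectrum (𝓞 K) → Fin d → ℂ) (θ ε B : ℝ) (hθ : θ < 1 / 2) (hα : Mod θ ε B α) (a : 𝓞 K)
    (x : ℕ) (hx : 1 ≤ x) :
    0 < ‖trunc α a x‖ ∧ |Real.log ‖trunc α a x‖ - ∑ v ∈ VT K x, (∑ i, (α v i).re) * sy v a / √(Ideal.absNorm v.asIdeal : ℝ)| ≤
      (1 - 2 ^ (θ - 1 / 2))⁻¹ * (B * (x : ℝ) ^ ε) := by
  have hc : (2 : ℝ) ^ (θ - 1 / 2) < 1 := Real.rpow_lt_one_of_one_lt_of_neg (by norm_num) (by linarith)
  have hc0 : 0 ≤ (1 - (2 : ℝ) ^ (θ - 1 / 2))⁻¹ := inv_nonneg.2 (by linarith)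
  have hz1 : ∀ v i, ‖α v i * (sy v a : ℂ) / ((√(Ideal.absNorm v.asIdeal : ℝ) : ℝ) : ℂ)‖ ≤ ‖α v i‖ / √(Ideal.absNorm v.asIdeal : ℝ) := by
    intro v i
    rw [norm_div, norm_mul, Complex.norm_real, Complex.norm_real, Real.norm_of_nonneg (Real.sqrt_nonneg _)]
    apply div_le_div_of_nonneg_right _ (Real.sqrt_nonneg _)
    calc ‖α v i‖ * ‖sy v a‖ ≤ ‖α v i‖ * 1 := mul_le_mul_of_nonneg_left (by rw [Real.norm_eq_abs]; exact sq_abs _) (norm_nonneg _)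
      _ = _ := mul_one _
  have hz : ∀ v i, ‖α v i * (sy v a : ℂ) / ((√(Ideal.absNorm v.asIdeal : ℝ) : ℝ) : ℂ)‖ ≤ (Ideal.absNorm v.asIdeal : ℝ) ^ (θ - 1 / 2) := by
    intro v i
    have hN := norm_two v
    refine (hz1 v i).trans ?_
    rw [Real.rpow_sub (by linarith), ← Real.sqrt_eq_rpow]
    exact div_le_div_of_nonneg_right (hα.size v i) (Real.sqrt_nonneg _)
  have hre : ∀ v i, (α v i * (sy v a : ℂ) / ((√(Ideal.absNorm v.asIdeal : ℝ) : ℝ) : ℂ)).re = (α v i).re * sy v a / √(Ideal.absNorm v.asIdeal : ℝ) := by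
    intro v i
    rw [Complex.div_ofReal_re, Complex.re_mul_ofReal]
  have hne : ∀ v i, (1 - α v i * (sy v a : ℂ) / ((√(Ideal.absNorm v.asIdeal : ℝ) : ℝ) : ℂ))⁻¹ ≠ 0 := fun v i =>
    (factor _ _ θ (norm_two v) hθ (hz v i)).1
  have hpos : 0 < ‖trunc α a x‖ := by
    rw [norm_pos_iff]
    unfold trunc
    exact prod_ne_zero_iff.2 fun v _ => prod_ne_zero_iff.2 fun i _ => hne v i
  refine ⟨hpos, ?_⟩
  have h1 : Real.log ‖trunc α a x‖ = ∑ v ∈ VT K x, ∑ i, Real.log ‖(1 - α v i * (sy v a : ℂ) / ((√(Ideal.absNorm v.asIdeal : ℝ) : ℝ) : ℂ))⁻¹‖ := by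
    unfold trunc
    rw [norm_prod, Real.log_prod fun v _ => (norm_pos_iff.2 (prod_ne_zero_iff.2 fun i _ => hne v i)).ne']
    refine sum_congr rfl fun v _ => ?_
    rw [norm_prod, Real.log_prod fun i _ => (norm_pos_iff.2 (hne v i)).ne']
  have h0 := mul_le_mul_of_nonneg_left (hα.square x hx) hc0
  refine le_trans ?_ h0
  rw [h1, ← sum_sub_distrib, mul_sum]
  refine (abs_sum_le_sum_abs _ _).trans (sum_le_sum fun v _ => ?_)
  have h2 : (∑ i, (α v i).re) * sy v a / √(Ideal.absNorm v.asIdeal : ℝ) =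
      ∑ i, (α v i * (sy v a : ℂ) / ((√(Ideal.absNorm v.asIdeal : ℝ) : ℝ) : ℂ)).re := by
    rw [sum_congr rfl fun i _ => hre v i, sum_mul, sum_div]
  rw [h2, ← sum_sub_distrib, mul_sum]
  refine (abs_sum_le_sum_abs _ _).trans (sum_le_sum fun i _ => (factor _ _ θ (norm_two v) hθ (hz v i)).2.trans ?_)
  apply mul_le_mul_of_nonneg_left _ hc0
  have hN := norm_two v
  calc ‖α v i * (sy v a : ℂ) / ((√(Ideal.absNorm v.asIdeal : ℝ) : ℝ) : ℂ)‖ ^ 2 ≤ (‖α v i‖ / √(Ideal.absNorm v.asIdeal : ℝ)) ^ 2 :=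
        pow_le_pow_left₀ (norm_nonneg _) (hz1 v i) 2
    _ = _ := by rw [div_pow, Real.sq_sqrt (by linarith)]

/-- the weight of a prime ideal -/
noncomputable def wt {d : ℕ} (α : HeightOneSpectrum (𝓞 K) → Fin d → ℂ) (v : HeightOneSpectrum (𝓞 K)) : ℝ :=
  (∑ i, (α v i).re) / (d + 1)

omit [NumberField K] in
lemma re_abs {d : ℕ} (α : HeightOneSpectrum (𝓞 K) → Fin d → ℂ) (v : HeightOneSpectrum (𝓞 K)) : |∑ i, (α v i).re| ≤ ∑ i, ‖α v i‖ :=
  (abs_sum_le_sum_abs _ _).trans (sum_le_sum fun i _ => Complex.abs_re_le_norm _)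

omit [NumberField K] in
lemma wt_abs {d : ℕ} (α : HeightOneSpectrum (𝓞 K) → Fin d → ℂ) (v : HeightOneSpectrum (𝓞 K)) (b : ℝ) (hb : 0 ≤ b)
    (hα : ∀ i, ‖α v i‖ ≤ b) : |wt α v| ≤ b := by
  have h1 : |∑ i, (α v i).re| ≤ d * b := by
    refine (re_abs α v).trans ((sum_le_sum fun i _ => hα i).trans ?_)
    rw [sum_const, card_univ, Fintype.card_fin, nsmul_eq_mul]
  unfold wt
  rw [abs_div, abs_of_pos (by positivity : (0 : ℝ) < (d : ℝ) + 1), div_le_iff₀ (by positivity)]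
  linarith

omit [NumberField K] in
lemma wt_sq {d : ℕ} (α : HeightOneSpectrum (𝓞 K) → Fin d → ℂ) (v : HeightOneSpectrum (𝓞 K)) : wt α v ^ 2 ≤ ∑ i, ‖α v i‖ ^ 2 := by
  have hd0 : (0 : ℝ) ≤ d := Nat.cast_nonneg _
  unfold wt
  rw [div_pow, div_le_iff₀ (by positivity)]
  have h1 := sq_sum_le_card_mul_sum_sq (s := (univ : Finset (Fin d))) (f := fun i => (α v i).re)
  rw [card_univ, Fintype.card_fin] at h1
  have h2 : ∑ i, (α v i).re ^ 2 ≤ ∑ i, ‖α v i‖ ^ 2 := by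
    refine sum_le_sum fun i _ => ?_
    rw [← _root_.sq_abs]
    exact pow_le_pow_left₀ (abs_nonneg _) (Complex.abs_re_le_norm _) 2
  have h3 : 0 ≤ ∑ i, ‖α v i‖ ^ 2 := sum_nonneg fun i _ => by positivity
  calc (∑ i, (α v i).re) ^ 2 ≤ d * ∑ i, (α v i).re ^ 2 := h1
    _ ≤ d * ∑ i, ‖α v i‖ ^ 2 := mul_le_mul_of_nonneg_left h2 hd0
    _ ≤ ((d : ℝ) + 1) ^ 2 * ∑ i, ‖α v i‖ ^ 2 := mul_le_mul_of_nonneg_right (by nlinarith) h3
    _ = _ := mul_comm _ _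

open Classical in
lemma fibre_sum (x : ℕ) (g : HeightOneSpectrum (𝓞 K) → ℝ) :
    ∑ v ∈ (VT K x).filter (fun v => (Ideal.absNorm v.asIdeal).Prime), g v = ∑ p ∈ pri x, ∑ v ∈ Vd K p, g v := by
  rw [← sum_fiberwise_of_maps_to (s := (VT K x).filter (fun v => (Ideal.absNorm v.asIdeal).Prime)) (t := pri x)
    (g := fun v => Ideal.absNorm v.asIdeal)]
  · refine sum_congr rfl fun p hp => ?_
    have hpp := mem_pri.1 hp
    have h1 : ((VT K x).filter (fun v => (Ideal.absNorm v.asIdeal).Prime)).filter (fun v => Ideal.absNorm v.asIdeal = p) = Vd K p := by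
      ext v
      rw [mem_filter, mem_filter, mem_VT, mem_Vd]
      constructor
      · exact fun h => h.2
      · intro h
        rw [h]
        exact ⟨⟨hpp.1, hpp.2⟩, rfl⟩
    rw [h1]
  · intro v hv
    rw [mem_filter, mem_VT] at hv
    exact mem_pri.2 hv

open Classical in
/-- **the logarithm of the truncated product** -/
theorem log_bound {d : ℕ} (α : HeightOneSpectrum (𝓞 K) → Fin d → ℂ) (θ ε B : ℝ) (hθ : θ < 1 / 2) (hα : Mod θ ε B α) (a : 𝓞 K)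
    (x : ℕ) (hx : 1 ≤ x) :
    |Real.log ‖trunc α a x‖| ≤ ((Module.finrank ℤ (𝓞 K) : ℝ) + 1) * (d + 1) *
      |∑ p ∈ pri x, (∑ v ∈ Vd K p, wt α v * sy v a) / (Module.finrank ℤ (𝓞 K) + 1) / √(p : ℝ)| +
      (1 + (1 - 2 ^ (θ - 1 / 2))⁻¹) * (B * (x : ℝ) ^ ε) := by
  obtain ⟨hpos, h1⟩ := log_trunc α θ ε B hθ hα a x hx
  obtain ⟨n, hn⟩ : ∃ n : ℝ, n = (Module.finrank ℤ (𝓞 K) : ℝ) := ⟨_, rfl⟩
  have hn0 : 0 ≤ n := by rw [hn]; exact Nat.cast_nonneg _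
  have hd0 : (0 : ℝ) ≤ d := Nat.cast_nonneg _
  -- the primes of higher degree
  obtain ⟨g, hg⟩ : ∃ g : HeightOneSpectrum (𝓞 K) → ℝ, g = fun v => (∑ i, (α v i).re) * sy v a / √(Ideal.absNorm v.asIdeal : ℝ) := ⟨_, rfl⟩
  have h3 : |∑ v ∈ (VT K x).filter (fun v => ¬ (Ideal.absNorm v.asIdeal).Prime), g v| ≤ B * (x : ℝ) ^ ε := by
    refine (abs_sum_le_sum_abs _ _).trans ?_
    refine le_trans ?_ (hα.high x hx ((VT K x).filter (fun v => ¬ (Ideal.absNorm v.asIdeal).Prime)) (filter_subset _ _)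
      fun v hv => (mem_filter.1 hv).2)
    refine sum_le_sum fun v _ => ?_
    rw [hg]
    beta_reduce
    rw [abs_div, abs_mul, abs_of_nonneg (Real.sqrt_nonneg _), ← sum_div]
    apply div_le_div_of_nonneg_right _ (Real.sqrt_nonneg _)
    calc |∑ i, (α v i).re| * |sy v a| ≤ (∑ i, ‖α v i‖) * 1 :=
          mul_le_mul (re_abs α v) (sq_abs _) (abs_nonneg _) (sum_nonneg fun i _ => norm_nonneg _)
      _ = _ := mul_one _
  -- the primes of degree one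
  have h4 : ∑ v ∈ (VT K x).filter (fun v => (Ideal.absNorm v.asIdeal).Prime), g v =
      (n + 1) * (d + 1) * ∑ p ∈ pri x, (∑ v ∈ Vd K p, wt α v * sy v a) / (n + 1) / √(p : ℝ) := by
    rw [fibre_sum, mul_sum]
    refine sum_congr rfl fun p hp => ?_
    have h5 : ∀ v ∈ Vd K p, g v = ((d : ℝ) + 1) * (wt α v * sy v a) / √(p : ℝ) := by
      intro v hv
      rw [mem_Vd] at hv
      rw [hg]
      beta_reduce
      rw [hv]
      unfold wt
      have : ((d : ℝ) + 1) ≠ 0 := by positivity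
      field_simp
    rw [sum_congr rfl h5, ← sum_div, ← mul_sum]
    have : (n + 1) ≠ 0 := by positivity
    field_simp
  have h5 : ∑ v ∈ VT K x, g v = ∑ v ∈ (VT K x).filter (fun v => (Ideal.absNorm v.asIdeal).Prime), g v +
      ∑ v ∈ (VT K x).filter (fun v => ¬ (Ideal.absNorm v.asIdeal).Prime), g v := (sum_filter_add_sum_filter_not _ _ _).symm
  have h6 : |∑ v ∈ VT K x, g v| ≤ (n + 1) * (d + 1) * |∑ p ∈ pri x, (∑ v ∈ Vd K p, wt α v * sy v a) / (n + 1) / √(p : ℝ)| +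
      B * (x : ℝ) ^ ε := by
    rw [h5, h4]
    refine (abs_add_le _ _).trans ?_
    rw [abs_mul, abs_of_nonneg (by positivity : 0 ≤ (n + 1) * ((d : ℝ) + 1))]
    linarith
  have h7 : |Real.log ‖trunc α a x‖ - ∑ v ∈ VT K x, g v| ≤ (1 - 2 ^ (θ - 1 / 2))⁻¹ * (B * (x : ℝ) ^ ε) := by
    rw [hg]
    exact h1
  have h8 := abs_add_le (Real.log ‖trunc α a x‖ - ∑ v ∈ VT K x, g v) (∑ v ∈ VT K x, g v)
  rw [sub_add_cancel] at h8
  rw [← hn]
  linarith

end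

end Pool.Agent.T3h87.QT
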