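import Pool.Agent.T3h87.LT.Real

/-!
# The kinds of sparse families for which there is no loss of a power of the logarithm of the size
-/

set_option autoImplicit false

namespace Pool.Agent.T3h87.QT

open Finset Filter
open Pool.Agent.N794.CG (FineAt Avh meanD FS QF Mostly Eng eng_fine eng_flex eng_aut eng_res eng_sv eng_dig)
open Pool.Agent.R459.Eq (pri mem_pri mean Vs)
open Pool.Agent.N794.CG (FineAt Avh meanD FS QF Mostly)
open Pool.Agent.T3h87.LT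

/-- The kinds of families without a loss of a power of the logarithm of the size in the probabilities of the exceptions: all of the
kinds `Kind`, but with `T = 0` for the exchangeable blocks of digits, and without the automatic sets. -/
inductive Sharp : (ℤ → Set Fam) → Prop
  | exchangeable (b L : ℕ) (hb : 2 ≤ b) (hL : 1 ≤ L) (η : ℝ) (hη : 0 < η) (hη1 : η ≤ 1) :
      Sharp (fun κ => {f | ∃ (k : ℕ) (p : ℕ → ℝ) (c : ℤ), Exchangeable b L η 0 k p ∧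
        f = ⟨ℕ, range (b ^ k), p, fun v => c + κ * (v : ℕ), (b : ℝ) ^ k⟩})
  | rearranged (b : ℕ) (hb : 2 ≤ b) (η : ℝ) (hη : 0 < η) :
      Sharp (fun κ => {f | ∃ (k : ℕ) (d : Fin k → ℕ) (c : ℤ), 2 ≤ k ∧ Spread b k η d ∧
        f = ⟨Equiv.Perm (Fin k), univ, fun _ => 1 / (k.factorial : ℝ),
          fun σ => c + κ * ((∑ i : Fin k, d (σ i) * b ^ (i : ℕ) : ℕ) : ℤ), (b : ℝ) ^ k⟩})
  | palindromic (b : ℕ) (hb : 2 ≤ b) :
      Sharp (fun κ => {f | ∃ (k : ℕ) (c : ℤ), 2 ≤ k ∧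
        f = ⟨ℕ, palindromes b k, fun _ => 1 / ((palindromes b k).card : ℝ), fun v => c + κ * (v : ℕ), (b : ℝ) ^ k⟩})
  | residues : Sharp (fun κ => {f | ∃ (ι : Type) (q : ℕ) (_ : NeZero q) (u : Finset ι) (y : ι → ZMod q) (Z : ℝ) (c : ℤ),
      0 < Z ∧ Z ≤ q ∧ Flat q (1 / (Z * (42 + 3 * Real.log q))) u y ∧
        f = ⟨ι, u, fun _ => 1 / (u.card : ℝ), fun i => c + κ * ((y i).val : ℕ), Z⟩})
  | nonintegral (t : ℝ) (g : ℝ → ℝ) (ht : 0 < t) (hn : ∀ m : ℕ, t ≠ m) (hg : SmoothlyVarying t g) :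
      Sharp (fun κ => {f | ∃ (M : ℕ) (c : ℤ), f = ⟨ℕ, Icc 1 M, fun _ => 1 / (M : ℝ), fun n => c + κ * (⌊g n⌋₊ : ℕ), g M⟩})


/-- the one-dimensional statement for these kinds -/
theorem sharp_fine {F : ℤ → Set Fam} (hF : Sharp F) (δ : ℝ) (hδ : 0 < δ) (hδ1 : δ ≤ 1 / 2) :
    ∃ W : ℕ, 1 ≤ W ∧ ∀ κ : ℤ, κ ≠ 0 → ∃ X₀ : ℕ, ∀ X : ℕ, X₀ ≤ X → ∀ f ∈ F κ,
      (∀ i ∈ f.set, 0 ≤ f.wt i) ∧ ∑ i ∈ f.set, f.wt i ≤ 1 ∧
      FineAt δ X (fun x => (x : ℝ) ^ W ≤ f.size) (loss f 0 * (2 * (X : ℝ) ^ (-(δ / 2)))) f.set f.wt f.val := by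
  classical
  have hτ : ∀ X : ℕ, 0 ≤ 2 * (X : ℝ) ^ (-(δ / 2)) := fun X => by positivity
  cases hF with
  | exchangeable b L hb hL η hη hη1 =>
    obtain ⟨W, hW, H⟩ := eng_flex hτ (eng_fine δ hδ hδ1) b L hb hL η hη hη1 0
    refine ⟨W, hW, fun κ hκ => ?_⟩
    obtain ⟨X₀, J⟩ := H κ hκ
    refine ⟨X₀, fun X hX f hf => ?_⟩
    obtain ⟨k, p, c, hp, rfl⟩ := hf
    refine ⟨fun i _ => hp.nonneg i, hp.sum.le, fun s => ?_⟩
    refine ((J X hX k p (flex_of hp) c s).mono fun n hn x hXx hxW => hn x hXx (by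
      have hxW' : (x : ℝ) ^ W ≤ (b : ℝ) ^ k := hxW
      exact_mod_cast hxW')).le ?_
    exact mul_le_mul_of_nonneg_right (pow_loss b k 0 hb) (hτ X)
  | rearranged b hb η hη =>
    obtain ⟨W, hW, H⟩ := eng_dig hτ (eng_fine δ hδ hδ1) b hb η hη
    refine ⟨W, hW, fun κ hκ => ?_⟩
    obtain ⟨X₀, J⟩ := H κ hκ
    refine ⟨X₀, fun X hX f hf => ?_⟩
    obtain ⟨k, d, c, hk, hd, rfl⟩ := hf
    have hfac : (0 : ℝ) < (k.factorial : ℝ) := by exact_mod_cast k.factorial_pos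
    have hcard : ((univ : Finset (Equiv.Perm (Fin k))).card : ℝ) = k.factorial := by
      rw [card_univ, Fintype.card_perm, Fintype.card_fin]
    refine ⟨fun i _ => by positivity, ?_, fun s E hE hbad => ?_⟩
    · rw [← hcard]
      exact card_one _
    · have hd' : Pool.Agent.TH872.An.Spread b k η d := ⟨hd.1, fun a => by
        have := hd.2 a
        convert this⟩
      have h1 := (J X hX k hk c s).1 d hd'
      rw [Pool.Agent.R459.Fams.count_eq] at h1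
      have h2 : (E.card : ℝ) ≤ 2 * (X : ℝ) ^ (-(δ / 2)) * k.factorial := by
        refine le_trans ?_ h1
        rw [Nat.cast_le]
        apply card_le_card
        intro σ hσ
        rw [mem_filter]
        refine ⟨mem_univ _, fun hall => hbad σ hσ fun x hXx hxW => ?_⟩
        have hxW' : (x : ℝ) ^ W ≤ (b : ℝ) ^ k := hxW
        have h3 := hall x hXx (by exact_mod_cast hxW')
        unfold Pool.Agent.TH872.An.V at h3
        exact h3
      rw [sum_const, nsmul_eq_mul]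
      simp only
      rw [mul_one_div, div_le_iff₀ hfac]
      refine h2.trans ?_
      apply mul_le_mul_of_nonneg_right _ hfac.le
      exact le_mul_of_one_le_left (hτ X) (one_le_loss _ _)
  | palindromic b hb =>
    obtain ⟨W, hW, H⟩ := eng_dig hτ (eng_fine δ hδ hδ1) b hb 1 one_pos
    refine ⟨W, hW, fun κ hκ => ?_⟩
    obtain ⟨X₀, J⟩ := H κ hκ
    refine ⟨X₀, fun X hX f hf => ?_⟩
    obtain ⟨k, c, hk, rfl⟩ := hf
    refine ⟨fun i _ => by positivity, card_one _, fun s E hE hbad => ?_⟩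
    have h1 := (J X hX k hk c s).2.1
    have hnum : ∀ Q : ℕ → Prop, Pool.Agent.TH872.Tr.num b k Q = ((palindromes b k).filter Q).card := by
      intro Q
      unfold Pool.Agent.TH872.Tr.num palindromes Pool.Agent.TH872.Tr.IsPalindrome
      congr 1
      ext v
      simp only [mem_filter, mem_range]
      constructor
      · rintro ⟨hv, ⟨q1, _, q3⟩, q4⟩
        exact ⟨⟨hv, q1, q3⟩, q4⟩
      · rintro ⟨⟨hv, q1, q3⟩, q4⟩
        exact ⟨hv, ⟨q1, hv, q3⟩, q4⟩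
    rw [hnum, hnum, filter_true] at h1
    have h2 : (E.card : ℝ) ≤ 2 * (X : ℝ) ^ (-(δ / 2)) * (palindromes b k).card := by
      refine le_trans ?_ h1
      rw [Nat.cast_le]
      apply card_le_card
      intro v hv
      simp only [mem_filter]
      refine ⟨hE hv, fun hall => hbad v hv fun x hXx hxW => ?_⟩
      have hxW' : (x : ℝ) ^ W ≤ (b : ℝ) ^ k := hxW
      exact hall x hXx (by exact_mod_cast hxW')
    rw [sum_const, nsmul_eq_mul]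
    simp only
    have hone := le_mul_of_one_le_left (hτ X) (one_le_loss ⟨ℕ, palindromes b k, fun _ => 1 / ((palindromes b k).card : ℝ),
      fun v => c + κ * (v : ℕ), (b : ℝ) ^ k⟩ 0)
    rcases Nat.eq_zero_or_pos (palindromes b k).card with h0 | h0
    · rw [h0]
      simp only [Nat.cast_zero, div_zero, mul_zero]
      exact (hτ X).trans hone
    · have h5 : (0 : ℝ) < (palindromes b k).card := by exact_mod_cast h0
      rw [mul_one_div, div_le_iff₀ h5]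
      exact h2.trans (mul_le_mul_of_nonneg_right hone h5.le)
  | residues =>
    obtain ⟨W, hW, H⟩ := eng_res hτ (eng_fine δ hδ hδ1)
    refine ⟨W, hW, fun κ hκ => ?_⟩
    obtain ⟨X₀, J⟩ := H κ hκ
    refine ⟨X₀, fun X hX f hf => ?_⟩
    obtain ⟨ι, q, hq, u, y, Z, c, hZ, hZq, hfl, rfl⟩ := hf
    refine ⟨fun i _ => by positivity, card_one _, fun s => ?_⟩
    refine (J X hX ι q u y Z hZ hZq hfl c s).le ?_
    exact le_mul_of_one_le_left (hτ X) (one_le_loss _ _)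
  | nonintegral t g ht hn hg =>
    obtain ⟨W, hW, H⟩ := eng_sv hτ (eng_fine δ hδ hδ1) t g ht hn hg
    refine ⟨W, hW, fun κ hκ => ?_⟩
    obtain ⟨X₀, J⟩ := H κ hκ
    refine ⟨X₀, fun X hX f hf => ?_⟩
    obtain ⟨M, c, rfl⟩ := hf
    refine ⟨fun i _ => by positivity, ?_, fun s => ?_⟩
    · have := card_one (Icc 1 M)
      simpa using this
    · refine (J X hX M c s).le ?_
      exact le_mul_of_one_le_left (hτ X) (one_le_loss _ _)


/-- the one-dimensional statement for all kinds -/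
theorem kind_fine2 {F : ℤ → Set Fam} (hF : Kind F) (δ : ℝ) (hδ : 0 < δ) (hδ1 : δ ≤ 1 / 2) :
    ∃ W e : ℕ, 1 ≤ W ∧ (Sharp F → e = 0) ∧ ∀ κ : ℤ, κ ≠ 0 → ∃ X₀ : ℕ, ∀ X : ℕ, X₀ ≤ X → ∀ f ∈ F κ,
      (∀ i ∈ f.set, 0 ≤ f.wt i) ∧ ∑ i ∈ f.set, f.wt i ≤ 1 ∧
      FineAt δ X (fun x => (x : ℝ) ^ W ≤ f.size) (loss f e * (2 * (X : ℝ) ^ (-(δ / 2)))) f.set f.wt f.val := by
  by_cases hs : Sharp F
  · obtain ⟨W, hW, H⟩ := sharp_fine hs δ hδ hδ1
    exact ⟨W, 0, hW, fun _ => rfl, H⟩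
  · obtain ⟨W, e, hW, H⟩ := kind_fine hF δ hδ hδ1
    exact ⟨W, e, hW, fun h => absurd h hs, H⟩

/-- **the general theorem** -/
theorem poly_gen2 (D : ℕ) (F : Fin D → ℤ → Set Fam) (hF : ∀ l, Kind (F l)) (δ : ℝ) (hδ : 0 < δ) (hδ1 : δ ≤ 1) :
    ∃ W e : ℕ, 1 ≤ W ∧ ((∀ l, Sharp (F l)) → e = 0) ∧ ∀ κ : Fin D → ℤ, (∀ l, κ l ≠ 0) → ∃ X₀ : ℕ, ∀ X : ℕ, X₀ ≤ X →
    ∀ f : Fin D → Fam, (∀ l, f l ∈ F l (κ l)) → (∀ l, ∀ i ∈ (f l).set, 0 ≤ (f l).wt i) ∧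
    ∀ h : ℕ → ℕ → (Fin D → ℤ) → ℝ, SysN h → ∀ E : Finset (∀ l, (f l).ι), E ⊆ Fintype.piFinset (fun l => (f l).set) →
    (∀ i ∈ E, ∃ x : ℕ, X ≤ x ∧ (∀ l, (x : ℝ) ^ W ≤ (f l).size) ∧ ∃ j : ℕ, (j : ℝ) ≤ (x : ℝ) ^ (δ / (8 * (D + 1))) ∧
      √(max 1 (∑ p ∈ pri (2 ^ D * x), meanD p D (h j p))) * (x : ℝ) ^ δ <
        |∑ p ∈ pri x, (h j p (fun l => (f l).val (i l)) - meanD p D (h j p))|) →
    ∑ i ∈ E, ∏ l, (f l).wt (i l) ≤ 1 / 2 * (∑ l, loss (f l) e) * (X : ℝ) ^ (-(δ / (8 * (D + 1)))) := by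
  classical
  have hD : (0 : ℝ) ≤ D := Nat.cast_nonneg D
  obtain ⟨δ₀, hδ₀⟩ : ∃ δ₀, δ₀ = δ / (2 * ((D : ℝ) + 1)) := ⟨_, rfl⟩
  obtain ⟨ρ, hρ⟩ : ∃ ρ, ρ = δ / (8 * ((D : ℝ) + 1)) := ⟨_, rfl⟩
  have hδ₀0 : 0 < δ₀ := by rw [hδ₀]; positivity
  have hρ0 : 0 < ρ := by rw [hρ]; positivity
  have hδρ : δ₀ / 2 = 2 * ρ := by
    rw [hδ₀, hρ]
    field_simp
    ring
  have hδ₀1 : δ₀ ≤ 1 / 2 := by
    rw [hδ₀, div_le_iff₀ (by positivity)]
    nlinarith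
  have hDδ : D * δ₀ ≤ δ / 2 := by
    have e : δ₀ * (2 * ((D : ℝ) + 1)) = δ := by
      rw [hδ₀]
      field_simp
    nlinarith
  choose W' e' hW' hS H using fun l => kind_fine2 (hF l) δ₀ hδ₀0 hδ₀1
  have hWs : ∀ l, W' l ≤ ∑ l, W' l := fun l => single_le_sum (f := W') (fun _ _ => Nat.zero_le _) (mem_univ l)
  have hes : ∀ l, e' l ≤ ∑ l, e' l := fun l => single_le_sum (f := e') (fun _ _ => Nat.zero_le _) (mem_univ l)
  refine ⟨(D + 1) * (∑ l, W' l) + 1, ∑ l, e' l, by omega, fun h => sum_eq_zero fun l _ => hS l (h l), fun κ hκ => ?_⟩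
  choose X' J using fun l => H l (κ l) (hκ l)
  have hXs : ∀ l, X' l ≤ ∑ l, X' l := fun l => single_le_sum (f := X') (fun _ _ => Nat.zero_le _) (mem_univ l)
  obtain ⟨X₁, hX₁⟩ := absorb1 4 ρ hρ0
  obtain ⟨X₂, hX₂⟩ := absorb1 (2 ^ (D ^ 2 + D)) (δ / 2) (by linarith)
  refine ⟨(∑ l, X' l) + X₁ + X₂ + 2, fun X hX f hf => ?_⟩
  have K := fun l => J l X (by have := hXs l; omega) (f l) (hf l)
  refine ⟨fun l => (K l).1, fun h hh E hE hbad => ?_⟩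
  have hXr : (0 : ℝ) < X := by exact_mod_cast (by omega : 0 < X)
  obtain ⟨R, hR⟩ : ∃ R : ℕ → Prop, R = fun y : ℕ => ∀ l, (y : ℝ) ^ (W' l) ≤ (f l).size := ⟨_, rfl⟩
  have hRm : ∀ x y : ℕ, x ≤ y → R y → R x := by
    intro x y hxy hy
    rw [hR] at hy ⊢
    intro l
    refine le_trans ?_ (hy l)
    exact pow_le_pow_left₀ (Nat.cast_nonneg x) (by exact_mod_cast hxy) _
  have h1 := multiN δ₀ hδ₀0 (by linarith) X (by omega) R hRm D (fun l => (f l).ι) (fun l => (f l).set) (fun l => (f l).wt)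
    (fun l => (f l).val) (fun l => loss (f l) (e' l) * (2 * (X : ℝ) ^ (-(δ₀ / 2))))
    (fun l => mul_nonneg (le_trans zero_le_one (one_le_loss _ _)) (by positivity)) (fun l => (K l).1) (fun l => (K l).2.1)
    (fun l s => ((K l).2.2 s).mono fun n hn x hXx hRx => hn x hXx (by rw [hR] at hRx; exact hRx l)) h hh E hE (by
      intro i hi
      obtain ⟨x, hXx, hsz, j, hj, hlt⟩ := hbad i hi
      have hx2 : 2 ≤ x := by omega
      have hx1 : (1 : ℝ) ≤ x := by exact_mod_cast (by omega : 1 ≤ x)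
      have hxp : (0 : ℝ) < x := by linarith
      refine ⟨x, hXx, ?_, j, ?_, ?_⟩
      · rw [hR]
        intro l
        refine range_chain D _ (W' l) x _ hx2 ?_ (hsz l) _ le_rfl
        have := Nat.mul_le_mul_left (D + 1) (hWs l)
        omega
      · refine hj.trans ?_
        rw [← hρ, hδρ]
        exact Real.rpow_le_rpow_of_exponent_le hx1 (by linarith)
      · refine lt_of_le_of_lt ?_ hlt
        have h2 : (2 : ℝ) ^ (D ^ 2 + D) ≤ (x : ℝ) ^ (δ / 2) := hX₂ x (by omega)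
        have h3 : (x : ℝ) ^ ((D : ℝ) * δ₀) ≤ (x : ℝ) ^ (δ / 2) := Real.rpow_le_rpow_of_exponent_le hx1 hDδ
        have h4 : (x : ℝ) ^ δ = (x : ℝ) ^ (δ / 2) * (x : ℝ) ^ (δ / 2) := by
          rw [← Real.rpow_add hxp]
          congr 1
          ring
        rw [h4]
        obtain ⟨S, hS⟩ : ∃ S, S = √(max 1 (∑ p ∈ pri (2 ^ D * x), meanD p D (h j p))) := ⟨_, rfl⟩
        have hS0 : 0 ≤ S := by rw [hS]; exact Real.sqrt_nonneg _
        rw [← hS]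
        calc 2 ^ (D ^ 2 + D) * (S * (x : ℝ) ^ ((D : ℝ) * δ₀)) = S * (2 ^ (D ^ 2 + D) * (x : ℝ) ^ ((D : ℝ) * δ₀)) := by ring
          _ ≤ S * ((x : ℝ) ^ (δ / 2) * (x : ℝ) ^ (δ / 2)) :=
              mul_le_mul_of_nonneg_left (mul_le_mul h2 h3 (by positivity) (by positivity)) hS0)
  refine h1.trans ?_
  have h5 : 2 * (X : ℝ) ^ (-(δ₀ / 2)) ≤ 1 / 2 * (X : ℝ) ^ (-ρ) := by
    have h6 : (4 : ℝ) ≤ (X : ℝ) ^ ρ := hX₁ X (by omega)
    have h7 : (X : ℝ) ^ (-ρ) = (X : ℝ) ^ ρ * (X : ℝ) ^ (-(δ₀ / 2)) := by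
      rw [← Real.rpow_add hXr]
      congr 1
      rw [hδρ]
      ring
    have h8 : 0 < (X : ℝ) ^ (-(δ₀ / 2)) := by positivity
    rw [h7]
    nlinarith
  calc ∑ l, loss (f l) (e' l) * (2 * (X : ℝ) ^ (-(δ₀ / 2))) ≤ ∑ l, loss (f l) (∑ l, e' l) * (1 / 2 * (X : ℝ) ^ (-ρ)) := by
        apply sum_le_sum
        intro l _
        exact mul_le_mul (loss_mono _ (hes l)) h5 (by positivity) (le_trans zero_le_one (one_le_loss _ _))
    _ = 1 / 2 * (∑ l, loss (f l) (∑ l, e' l)) * (X : ℝ) ^ (-(δ / (8 * ((D : ℝ) + 1)))) := by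
        rw [← sum_mul, ← hρ]
        ring


/-- **arbitrary sequences of properties** -/
theorem poly_all2 (D : ℕ) (F : Fin D → ℤ → Set Fam) (hF : ∀ l, Kind (F l)) (δ : ℝ) (hδ : 0 < δ) (hδ1 : δ ≤ 1) :
    ∃ (W e K : ℕ) (ρ : ℝ), 1 ≤ W ∧ 1 ≤ K ∧ 0 < ρ ∧ ((∀ l, Sharp (F l)) → e = 0) ∧ ∀ κ : Fin D → ℤ, (∀ l, κ l ≠ 0) → ∃ X₀ : ℕ, ∀ X : ℕ, X₀ ≤ X →
    ∀ f : Fin D → Fam, (∀ l, f l ∈ F l (κ l)) →
    ∀ h : ℕ → ℕ → (Fin D → ℤ) → ℝ, SysA h → ∀ E : Finset (∀ l, (f l).ι), E ⊆ Fintype.piFinset (fun l => (f l).set) →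
    (∀ i ∈ E, ∃ x : ℕ, X ≤ x ∧ (∀ l, (x : ℝ) ^ W ≤ (f l).size) ∧ ∃ j : ℕ, (j + 1) ^ K ≤ x ∧
      √(max 1 (∑ p ∈ pri (2 ^ D * x), meanD p D (h j p))) * (x : ℝ) ^ δ <
        |∑ p ∈ pri x, (h j p (fun l => (f l).val (i l)) - meanD p D (h j p))|) →
    ∑ i ∈ E, ∏ l, (f l).wt (i l) ≤ (∑ l, (1 + |Real.log (f l).size|) ^ e) * (X : ℝ) ^ (-ρ) := by
  classical
  have hD : (0 : ℝ) ≤ D := Nat.cast_nonneg D
  obtain ⟨c, hc⟩ : ∃ c, c = δ / (8 * ((D : ℝ) + 1)) := ⟨_, rfl⟩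
  have hc0 : 0 < c := by rw [hc]; positivity
  obtain ⟨W, e, hW, hS, H⟩ := poly_gen2 D F hF δ hδ hδ1
  obtain ⟨K, hK⟩ : ∃ K, K = ⌈4 / c⌉₊ + 1 := ⟨_, rfl⟩
  have hKc : 2 ≤ K * (c / 2) := by
    have h1 : 4 / c ≤ (K : ℝ) := by
      rw [hK]
      push_cast
      linarith [Nat.le_ceil (4 / c)]
    rw [div_le_iff₀ hc0] at h1
    linarith
  refine ⟨W, e, K, c / 2, hW, by omega, by linarith, hS, fun κ hκ => ?_⟩
  obtain ⟨X₀, J⟩ := H κ hκ
  refine ⟨X₀ + 1, fun X hX f hf h hh E hE hbad => ?_⟩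
  have hX1 : (1 : ℝ) ≤ X := by exact_mod_cast (by omega : 1 ≤ X)
  have hXp : (0 : ℝ) < X := by linarith
  have hw := (J X (by omega) f hf).1
  have hnn : ∀ i ∈ E, 0 ≤ ∏ l, (f l).wt (i l) := fun i hi =>
    prod_nonneg fun l _ => hw l _ (Fintype.mem_piFinset.1 (hE hi) l)
  obtain ⟨L, hL⟩ : ∃ L, L = ∑ l, (1 + |Real.log (f l).size|) ^ e := ⟨_, rfl⟩
  have hL0 : 0 ≤ L := by
    rw [hL]
    exact sum_nonneg fun l _ => by positivity
  -- the exceptions for a single function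
  obtain ⟨B, hB⟩ : ∃ B : ℕ → (∀ l, (f l).ι) → Prop, B = fun j i => ∃ x : ℕ, max X ((j + 1) ^ K) ≤ x ∧
      (∀ l, (x : ℝ) ^ W ≤ (f l).size) ∧
      √(max 1 (∑ p ∈ pri (2 ^ D * x), meanD p D (h j p))) * (x : ℝ) ^ δ <
        |∑ p ∈ pri x, (h j p (fun l => (f l).val (i l)) - meanD p D (h j p))| := ⟨_, rfl⟩
  have hone : ∀ j : ℕ, ∑ i ∈ E.filter (B j), ∏ l, (f l).wt (i l) ≤ 1 / 2 * L * ((X : ℝ) ^ (-(c / 2)) * (1 / ((j : ℝ) + 1) ^ 2)) := by
    intro j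
    have h1 := (J (max X ((j + 1) ^ K)) (le_trans (by omega) (le_max_left _ _)) f hf).2 (single h j) (hh.single j)
      (E.filter (B j)) ((filter_subset _ _).trans hE) (by
        intro i hi
        have h2 := (mem_filter.1 hi).2
        rw [hB] at h2
        obtain ⟨x, q1, q2, q3⟩ := h2
        refine ⟨x, q1, q2, 0, ?_, ?_⟩
        · push_cast
          positivity
        · have e9 : ∀ p, single h j 0 p = h j p := fun p => funext fun m => if_pos rfl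
          simp only [e9]
          exact q3)
    refine h1.trans ?_
    have e1 : ∑ l, loss (f l) e = L := by
      rw [hL]
      rfl
    rw [e1, ← hc]
    apply mul_le_mul_of_nonneg_left _ (by linarith)
    obtain ⟨Y, hY⟩ : ∃ Y : ℝ, Y = ((max X ((j + 1) ^ K) : ℕ) : ℝ) := ⟨_, rfl⟩
    have hYX : (X : ℝ) ≤ Y := by rw [hY]; exact_mod_cast le_max_left _ _
    have hYj : (((j : ℝ) + 1) ^ K) ≤ Y := by
      rw [hY]
      have : (((j + 1) ^ K : ℕ) : ℝ) ≤ ((max X ((j + 1) ^ K) : ℕ) : ℝ) := by exact_mod_cast le_max_right _ _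
      push_cast at this ⊢
      exact this
    have hYp : 0 < Y := by linarith
    rw [← hY]
    have hj1 : (1 : ℝ) ≤ (j : ℝ) + 1 := by linarith [Nat.cast_nonneg (α := ℝ) j]
    have hjp : (0 : ℝ) < (j : ℝ) + 1 := by linarith
    have e2 : Y ^ (-c) = Y ^ (-(c / 2)) * Y ^ (-(c / 2)) := by
      rw [← Real.rpow_add hYp]
      congr 1
      ring
    rw [e2]
    apply mul_le_mul _ _ (by positivity) (by positivity)
    · exact Real.rpow_le_rpow_of_nonpos hXp hYX (by linarith)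
    · calc Y ^ (-(c / 2)) ≤ (((j : ℝ) + 1) ^ K) ^ (-(c / 2)) :=
            Real.rpow_le_rpow_of_nonpos (by positivity) hYj (by linarith)
        _ = ((j : ℝ) + 1) ^ (-(K * (c / 2))) := by
            rw [← Real.rpow_natCast, ← Real.rpow_mul hjp.le]
            congr 1
            ring
        _ ≤ ((j : ℝ) + 1) ^ (-(2 : ℝ)) := Real.rpow_le_rpow_of_exponent_le hj1 (by linarith)
        _ = 1 / ((j : ℝ) + 1) ^ 2 := by
            rw [Real.rpow_neg hjp.le, one_div]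
            congr 1
            exact_mod_cast Real.rpow_natCast ((j : ℝ) + 1) 2
  -- all the functions
  have hcov : ∃ M : ℕ, ∀ i ∈ E, ∃ j : ℕ, j < M + 1 ∧ B j i := by
    obtain ⟨js, hjs⟩ : ∃ js : (∀ l, (f l).ι) → ℕ, ∀ i ∈ E, B (js i) i := by
      have h3 : ∀ i ∈ E, ∃ j, B j i := by
        intro i hi
        obtain ⟨x, q1, q2, j, q3, q4⟩ := hbad i hi
        refine ⟨j, ?_⟩
        rw [hB]
        exact ⟨x, max_le q1 q3, q2, q4⟩
      choose! js hjs using h3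
      exact ⟨js, hjs⟩
    refine ⟨E.sup js, fun i hi => ⟨js i, ?_, hjs i hi⟩⟩
    exact Nat.lt_succ_of_le (le_sup (f := js) hi)
  obtain ⟨M, hM⟩ := hcov
  have hsum : ∑ i ∈ E, ∏ l, (f l).wt (i l) ≤ ∑ j ∈ range (M + 1), ∑ i ∈ E.filter (B j), ∏ l, (f l).wt (i l) := by
    have e3 : ∀ j, ∑ i ∈ E.filter (B j), ∏ l, (f l).wt (i l) = ∑ i ∈ E, if B j i then ∏ l, (f l).wt (i l) else 0 :=
      fun j => sum_filter _ _
    simp only [e3]
    rw [sum_comm]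
    apply sum_le_sum
    intro i hi
    obtain ⟨j, hj, hBj⟩ := hM i hi
    have h4 : (if B j i then ∏ l, (f l).wt (i l) else 0) ≤ ∑ j ∈ range (M + 1), if B j i then ∏ l, (f l).wt (i l) else 0 :=
      single_le_sum (f := fun j => if B j i then ∏ l, (f l).wt (i l) else 0)
        (fun j' _ => by
          split_ifs
          · exact hnn i hi
          · exact le_rfl) (mem_range.2 hj)
    rwa [if_pos hBj] at h4
  refine hsum.trans ((sum_le_sum fun j _ => hone j).trans ?_)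
  rw [← mul_sum, ← mul_sum]
  have h5 := sum_sq M
  have h6 : (0 : ℝ) ≤ 1 / ((M : ℝ) + 1) := by positivity
  have h7 : 0 ≤ (X : ℝ) ^ (-(c / 2)) := by positivity
  have h8 : (X : ℝ) ^ (-(c / 2)) * ∑ j ∈ range (M + 1), 1 / ((j : ℝ) + 1) ^ 2 ≤ (X : ℝ) ^ (-(c / 2)) * 2 :=
    mul_le_mul_of_nonneg_left (by linarith) h7
  calc 1 / 2 * L * ((X : ℝ) ^ (-(c / 2)) * ∑ j ∈ range (M + 1), 1 / ((j : ℝ) + 1) ^ 2) ≤
        1 / 2 * L * ((X : ℝ) ^ (-(c / 2)) * 2) := mul_le_mul_of_nonneg_left h8 (by linarith)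
    _ = L * (X : ℝ) ^ (-(c / 2)) := by ring
    _ = _ := by rw [hL]


end Pool.Agent.T3h87.QT
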